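import Mathlib

/-!
# Symmetric progression-free sets: balanced weights
-/

set_option autoImplicit false
set_option linter.unusedSectionVars false

namespace Pool.Agent.H287R3.RA.AP

open Finset Equiv

variable {p : ℕ} [hp : Fact p.Prime]

/-- every element of a set with more than `(p+1)/2` elements is the midpoint of two others -/
theorem exists_mid (V : Finset (ZMod p)) (hV : p + 1 < 2 * V.card) (y : ZMod p)
    (hy : y ∈ V) : ∃ d : ZMod p, d ≠ 0 ∧ y + d ∈ V ∧ y - d ∈ V := by
  classical
  set V' := V.erase y with hV'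
  set W := V'.image (fun v => 2 * y - v) with hW
  have hinj : Function.Injective (fun v : ZMod p => 2 * y - v) := fun a b h => by
    simpa using h
  have hpp : 2 ≤ p := hp.out.two_le
  have h1 : V'.card + 1 = V.card := Finset.card_erase_add_one hy
  have h2 : W.card = V'.card := Finset.card_image_of_injective _ hinj
  have hsub : V' ∪ W ⊆ univ.erase y := by
    intro v hv
    rw [Finset.mem_erase]
    refine ⟨?_, Finset.mem_univ _⟩
    rintro rfl
    rw [Finset.mem_union] at hv
    rcases hv with hv | hv
    · exact Finset.notMem_erase _ _ hv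
    · rw [hW, Finset.mem_image] at hv
      obtain ⟨a, ha, hav⟩ := hv
      have : a = v := by linear_combination -hav
      rw [this] at ha
      exact Finset.notMem_erase _ _ ha
  have h3 : (V' ∪ W).card ≤ p - 1 := by
    refine (Finset.card_le_card hsub).trans ?_
    rw [Finset.card_erase_of_mem (Finset.mem_univ _), Finset.card_univ, ZMod.card]
  have h4 := Finset.card_union_add_card_inter V' W
  have h5 : (V' ∩ W).Nonempty := by
    rw [← Finset.card_pos]
    omega
  obtain ⟨v, hv⟩ := h5
  rw [Finset.mem_inter, hW, Finset.mem_image] at hv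
  obtain ⟨hv1, a, ha, hav⟩ := hv
  rw [hV', Finset.mem_erase] at hv1 ha
  refine ⟨v - y, sub_ne_zero.2 hv1.1, ?_, ?_⟩
  · rw [add_sub_cancel]
    exact hv1.2
  · have : y - (v - y) = a := by rw [← hav]; ring
    rw [this]
    exact ha.2

/-- balanced integer weights -/
theorem exists_weights {V : Type} [Fintype V] [DecidableEq V] [Nonempty V] (a b : V → V) :
    ∃ w : V → ℕ, (∃ v, w v ≠ 0) ∧
      ∀ v, 2 * w v = ∑ y, w y * ((if a y = v then 1 else 0) + (if b y = v then 1 else 0)) := by
  classical
  set c : V → V → ℤ := fun y v => (if a y = v then 1 else 0) + (if b y = v then 1 else 0) with hc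
  have hc0 : ∀ y v, 0 ≤ c y v := by
    intro y v
    simp only [hc]
    positivity
  have hcs : ∀ y, ∑ v, c y v = 2 := by
    intro y
    simp only [hc]
    rw [Finset.sum_add_distrib, Finset.sum_ite_eq, Finset.sum_ite_eq, if_pos (Finset.mem_univ _),
      if_pos (Finset.mem_univ _)]
    norm_num
  set M : Matrix V V ℤ := fun y v => c y v - 2 * (if y = v then 1 else 0) with hM
  have hdet : M.det = 0 := by
    rw [← Matrix.exists_mulVec_eq_zero_iff]
    refine ⟨fun _ => 1, ?_, ?_⟩
    · intro h
      have := congrFun h (Classical.arbitrary V)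
      exact one_ne_zero this
    · funext y
      rw [Matrix.mulVec, dotProduct]
      simp only [hM, mul_one, Pi.zero_apply]
      rw [Finset.sum_sub_distrib, hcs, ← Finset.mul_sum, Finset.sum_ite_eq,
        if_pos (Finset.mem_univ _)]
      norm_num
  rw [← Matrix.exists_vecMul_eq_zero_iff] at hdet
  obtain ⟨r, hr0, hr⟩ := hdet
  have hr' : ∀ v, ∑ y, r y * c y v = 2 * r v := by
    intro v
    have h1 := congrFun hr v
    rw [Matrix.vecMul, dotProduct] at h1
    simp only [hM, Pi.zero_apply] at h1
    have h2 : ∑ y, r y * (c y v - 2 * (if y = v then 1 else 0)) =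
        ∑ y, r y * c y v - 2 * r v := by
      simp only [mul_sub]
      rw [Finset.sum_sub_distrib]
      congr 1
      rw [Finset.sum_eq_single v]
      · simp; ring
      · intro y _ hy
        simp [hy]
      · intro h; exact absurd (Finset.mem_univ _) h
    rw [h2] at h1
    linarith
  have habs : ∀ v, 2 * |r v| ≤ ∑ y, |r y| * c y v := by
    intro v
    calc 2 * |r v| = |2 * r v| := by rw [abs_mul]; norm_num
      _ = |∑ y, r y * c y v| := by rw [hr']
      _ ≤ ∑ y, |r y * c y v| := Finset.abs_sum_le_sum_abs _ _
      _ = ∑ y, |r y| * c y v := by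
        apply Finset.sum_congr rfl
        intro y _
        rw [abs_mul, abs_of_nonneg (hc0 y v)]
  have htot : ∑ v, 2 * |r v| = ∑ v, ∑ y, |r y| * c y v := by
    rw [Finset.sum_comm]
    apply Finset.sum_congr rfl
    intro y _
    rw [← Finset.mul_sum, hcs]
    ring
  have heq : ∀ v ∈ (univ : Finset V), 2 * |r v| = ∑ y, |r y| * c y v :=
    (Finset.sum_eq_sum_iff_of_le (fun v _ => habs v)).1 htot
  refine ⟨fun v => (r v).natAbs, ?_, ?_⟩
  · by_contra hcon
    push Not at hcon
    apply hr0
    funext v
    exact Int.natAbs_eq_zero.1 (hcon v)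
  · intro v
    have h := heq v (Finset.mem_univ v)
    have h2 : ((2 * (r v).natAbs : ℕ) : ℤ) =
        ((∑ y, (r y).natAbs * ((if a y = v then 1 else 0) + (if b y = v then 1 else 0)) : ℕ) : ℤ) := by
      push_cast
      rw [h]
    exact_mod_cast h2

/-- two words with the same letter counts differ by a permutation -/
theorem exists_perm {I β : Type} [Fintype I] [DecidableEq β] (f g : I → β)
    (h : ∀ b, Fintype.card {i // f i = b} = Fintype.card {i // g i = b}) :
    ∃ σ : Perm I, ∀ i, f i = g (σ i) := by
  classical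
  have e : ∀ b, {i // f i = b} ≃ {i // g i = b} := fun b => Fintype.equivOfCardEq (h b)
  refine ⟨(Equiv.sigmaFiberEquiv f).symm.trans ((Equiv.sigmaCongrRight e).trans
    (Equiv.sigmaFiberEquiv g)), fun i => ?_⟩
  exact ((e (f i) ⟨i, rfl⟩).2).symm

end Pool.Agent.H287R3.RA.AP
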