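import Pool.Agent.H287R3.RA.APa

/-!
# Symmetric progression-free sets
-/

set_option autoImplicit false
set_option linter.unusedSectionVars false

namespace Pool.Agent.H287R3.RA.AP

open Finset Equiv

variable {p : ℕ} [hp : Fact p.Prime]

/-- no nontrivial three-term progression -/
def APFree {n : ℕ} (A : Finset (Fin n → ZMod p)) : Prop :=
  ∀ x y : Fin n → ZMod p, x ∈ A → x + y ∈ A → x + 2 • y ∈ A → y = 0

/-- invariant under permutations of coordinates -/
def Sym {n : ℕ} (A : Finset (Fin n → ZMod p)) : Prop :=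
  ∀ (σ : Perm (Fin n)), ∀ x ∈ A, (fun i => x (σ i)) ∈ A

theorem letters (V : Finset (ZMod p)) (hV : p + 1 < 2 * V.card) : ∃ K : ℕ, ∀ (n : ℕ)
    (A : Finset (Fin n → ZMod p)), APFree A → Sym A → ∀ u ∈ A, ∃ v ∈ V,
      (univ.filter (fun i => u i = v)).card < K := by
  classical
  have hVne : V.Nonempty := by
    rw [← Finset.card_pos]
    omega
  have hne : Nonempty V := hVne.to_subtype
  have hmid : ∀ y : V, ∃ d : ZMod p, d ≠ 0 ∧ (y : ZMod p) + d ∈ V ∧ (y : ZMod p) - d ∈ V :=
    fun y => exists_mid V hV y y.2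
  choose d hd0 hda hdb using hmid
  obtain ⟨w, ⟨v₀, hv₀⟩, hw⟩ := exists_weights (V := V) (fun y => ⟨y + d y, hda y⟩)
    (fun y => ⟨y - d y, hdb y⟩)
  refine ⟨2 * ∑ v, w v, ?_⟩
  intro n A hA hS u hu
  by_contra hcon
  push Not at hcon
  -- the pattern
  let I := Σ y : V, Fin (w y) × Bool
  let f : I → V := fun i => i.1
  let g : I → V := fun i => if i.2.2 then ⟨i.1 + d i.1, hda i.1⟩ else ⟨i.1 - d i.1, hdb i.1⟩
  let g' : I → V := fun i => if i.2.2 then ⟨i.1 - d i.1, hdb i.1⟩ else ⟨i.1 + d i.1, hda i.1⟩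
  have cardI : ∀ (φ : I → V) (P : V → Bool → V), (∀ i, φ i = P i.1 i.2.2) → ∀ v,
      Fintype.card {i // φ i = v} =
        ∑ y, w y * ((if P y true = v then 1 else 0) + (if P y false = v then 1 else 0)) := by
    intro φ P hφ v
    rw [Fintype.card_subtype, Finset.card_filter, ← Finset.univ_sigma_univ, Finset.sum_sigma]
    apply Finset.sum_congr rfl
    intro y _
    rw [← Finset.univ_product_univ, Finset.sum_product]
    have : ∀ a : Fin (w y), ∑ b : Bool, (if φ ⟨y, (a, b)⟩ = v then 1 else 0) =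
        (if P y true = v then 1 else 0) + (if P y false = v then 1 else 0) := by
      intro a
      rw [Fintype.sum_bool, hφ, hφ]
    rw [Finset.sum_congr rfl (fun a _ => this a), Finset.sum_const, Finset.card_univ,
      Fintype.card_fin, smul_eq_mul]
  have cf : ∀ v, Fintype.card {i // f i = v} = 2 * w v := by
    intro v
    rw [cardI f (fun y _ => y) (fun _ => rfl) v, Finset.sum_eq_single v]
    · simp; ring
    · intro y _ hy
      simp [hy]
    · intro h; exact absurd (Finset.mem_univ _) h
  have cg : ∀ v, Fintype.card {i // g i = v} = 2 * w v := by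
    intro v
    rw [hw v, cardI g (fun y b => if b then ⟨y + d y, hda y⟩ else ⟨y - d y, hdb y⟩)
      (fun _ => rfl) v]
    rfl
  have cg' : ∀ v, Fintype.card {i // g' i = v} = 2 * w v := by
    intro v
    rw [hw v, cardI g' (fun y b => if b then ⟨y - d y, hdb y⟩ else ⟨y + d y, hda y⟩)
      (fun _ => rfl) v]
    apply Finset.sum_congr rfl
    intro y _
    congr 1
    exact add_comm _ _
  obtain ⟨σ, hσ⟩ := exists_perm g f (fun v => by rw [cg, cf])
  obtain ⟨σ', hσ'⟩ := exists_perm g' f (fun v => by rw [cg', cf])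
  -- embedding
  have hemb : ∀ v : V, Nonempty ({i // f i = v} ↪ {c : Fin n // u c = v}) := by
    intro v
    rw [Function.Embedding.nonempty_iff_card_le, cf, Fintype.card_subtype]
    refine le_trans ?_ (hcon v v.2)
    exact Nat.mul_le_mul_left _ (Finset.single_le_sum (fun _ _ => Nat.zero_le _)
      (Finset.mem_univ v))
  have ev : ∀ v : V, {i // f i = v} ↪ {c : Fin n // u c = v} := fun v => (hemb v).some
  let e₀ : I → Fin n := fun i => (ev (f i) ⟨i, rfl⟩ : Fin n)
  have he₀ : ∀ (i : I) (v : V) (h : f i = v), e₀ i = (ev v ⟨i, h⟩ : Fin n) := by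
    intro i v h
    subst h
    rfl
  have hue : ∀ i, u (e₀ i) = f i := fun i => (ev (f i) ⟨i, rfl⟩).2
  have hinj : Function.Injective e₀ := by
    intro i j hij
    have h1 : f i = f j := by
      apply Subtype.ext
      rw [← hue i, ← hue j, hij]
    have h2 := he₀ i (f j) h1
    have h3 := he₀ j (f j) rfl
    rw [h2, h3] at hij
    have h4 := (ev (f j)).injective (Subtype.ext hij)
    exact congrArg Subtype.val h4
  let e : I ↪ Fin n := ⟨e₀, hinj⟩
  have hx := hS (σ.viaEmbedding e) u hu
  have hz := hS (σ'.viaEmbedding e) u hu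
  set x : Fin n → ZMod p := fun c => u (σ.viaEmbedding e c) with hxdef
  set z : Fin n → ZMod p := fun c => u (σ'.viaEmbedding e c) with hzdef
  have hxe : ∀ i, x (e i) = g i := by
    intro i
    simp only [hxdef]
    rw [Equiv.Perm.viaEmbedding_apply]
    show u (e₀ (σ i)) = _
    rw [hue, hσ]
  have hze : ∀ i, z (e i) = g' i := by
    intro i
    simp only [hzdef]
    rw [Equiv.Perm.viaEmbedding_apply]
    show u (e₀ (σ' i)) = _
    rw [hue, hσ']
  have hxo : ∀ c, c ∉ Set.range e → x c = u c := by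
    intro c hc
    simp only [hxdef]
    rw [Equiv.Perm.viaEmbedding_apply_of_notMem _ _ _ hc]
  have hzo : ∀ c, c ∉ Set.range e → z c = u c := by
    intro c hc
    simp only [hzdef]
    rw [Equiv.Perm.viaEmbedding_apply_of_notMem _ _ _ hc]
  have h1 : x + (u - x) = u := by abel
  have h2 : x + 2 • (u - x) = z := by
    funext c
    show x c + 2 • (u c - x c) = z c
    by_cases hc : c ∈ Set.range e
    · obtain ⟨i, rfl⟩ := hc
      rw [hxe, hze]
      have h3 : u (e i) = f i := hue i
      rw [h3]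
      simp only [f, g, g']
      split_ifs
      · simp only [nsmul_eq_mul, Nat.cast_ofNat]
        ring
      · simp only [nsmul_eq_mul, Nat.cast_ofNat]
        ring
    · rw [hxo c hc, hzo c hc]
      simp
  have h3 := hA x (u - x) hx (by rw [h1]; exact hu) (by rw [h2]; exact hz)
  let i₀ : I := ⟨v₀, (⟨0, Nat.pos_of_ne_zero hv₀⟩, true)⟩
  have h4 := congrFun h3 (e i₀)
  rw [Pi.sub_apply, hxe, Pi.zero_apply] at h4
  have h5 : u (e i₀) = f i₀ := hue i₀
  rw [h5] at h4
  simp only [f, g, i₀, if_true] at h4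
  apply hd0 v₀
  linear_combination -h4

theorem exists_cover {n L : ℕ} (hn : 1 ≤ n) (T : Finset (Fin n)) (hT : T.card ≤ L) :
    ∃ l : Fin L → Fin n, ∀ i ∈ T, ∃ j, l j = i := by
  refine ⟨fun j => if h : j.1 < T.card then (T.equivFin.symm ⟨j, h⟩).1 else ⟨0, by omega⟩, ?_⟩
  intro i hi
  have h1 := (T.equivFin ⟨i, hi⟩).2
  refine ⟨⟨(T.equivFin ⟨i, hi⟩).1, by omega⟩, ?_⟩
  simp only
  rw [dif_pos h1]
  simp

theorem card_few {n K h : ℕ} (hn : 1 ≤ n) (hh : 1 ≤ h) (V : Finset (ZMod p)) (hV : V.card = h) :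
    (univ.filter (fun u : Fin n → ZMod p => ∀ v, v ∉ V →
      (univ.filter (fun i => u i = v)).card < K)).card ≤ (n * p) ^ (p * K) * h ^ n := by
  classical
  set S := univ.filter (fun u : Fin n → ZMod p => ∀ v, v ∉ V →
      (univ.filter (fun i => u i = v)).card < K) with hS
  have hVne : V.Nonempty := by
    rw [← Finset.card_pos]
    omega
  obtain ⟨v₀, hv₀⟩ := hVne
  let Φ : (Fin (p * K) → Fin n × ZMod p) × (Fin n → V) → (Fin n → ZMod p) := fun q i =>
    if h : ∃ j, (q.1 j).1 = i then (q.1 h.choose).2 else q.2 i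
  have hsub : S ⊆ univ.image Φ := by
    intro u hu
    rw [hS, Finset.mem_filter] at hu
    set T : Finset (Fin n) := univ.filter (fun i => u i ∉ V) with hT
    have hTc : T.card ≤ p * K := by
      have h1 : T ⊆ (univ : Finset (ZMod p)).biUnion
          (fun v => if v ∉ V then univ.filter (fun i => u i = v) else ∅) := by
        intro i hi
        rw [hT, Finset.mem_filter] at hi
        rw [Finset.mem_biUnion]
        refine ⟨u i, Finset.mem_univ _, ?_⟩
        rw [if_pos hi.2, Finset.mem_filter]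
        exact ⟨Finset.mem_univ _, rfl⟩
      calc T.card ≤ _ := Finset.card_le_card h1
        _ ≤ ∑ v : ZMod p, (if v ∉ V then univ.filter (fun i => u i = v) else ∅).card :=
          Finset.card_biUnion_le
        _ ≤ ∑ _v : ZMod p, K := by
          apply Finset.sum_le_sum
          intro v _
          by_cases hv : v ∉ V
          · rw [if_pos hv]
            exact (hu.2 v hv).le
          · rw [if_neg hv, Finset.card_empty]
            exact Nat.zero_le _
        _ = p * K := by rw [Finset.sum_const, Finset.card_univ, ZMod.card, smul_eq_mul]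
    obtain ⟨l, hl⟩ := exists_cover hn T hTc
    rw [Finset.mem_image]
    refine ⟨(fun j => (l j, u (l j)), fun i => if h : u i ∈ V then ⟨u i, h⟩ else ⟨v₀, hv₀⟩),
      Finset.mem_univ _, ?_⟩
    funext i
    simp only [Φ]
    by_cases hex : ∃ j, l j = i
    · rw [dif_pos hex, hex.choose_spec]
    · rw [dif_neg hex]
      have hi : u i ∈ V := by
        by_contra hcon
        exact hex (hl i (by rw [hT, Finset.mem_filter]; exact ⟨Finset.mem_univ _, hcon⟩))
      rw [dif_pos hi]
  calc S.card ≤ _ := Finset.card_le_card hsub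
    _ ≤ _ := Finset.card_image_le
    _ = (n * p) ^ (p * K) * h ^ n := by
      rw [Finset.card_univ, Fintype.card_prod, Fintype.card_fun, Fintype.card_fun,
        Fintype.card_prod, Fintype.card_fin, Fintype.card_fin, ZMod.card, Fintype.card_coe, hV]

/-- the upper bound -/
theorem upper (h : ℕ) (hph : p + 1 = 2 * h) : ∃ C : ℕ, ∀ (n : ℕ) (A : Finset (Fin n → ZMod p)),
    1 ≤ n → APFree A → Sym A → A.card ≤ C * n ^ C * h ^ n := by
  classical
  have hpp := hp.out.two_le
  have hK : ∀ V : Finset (ZMod p), ∃ K : ℕ, p + 1 < 2 * V.card → ∀ (n : ℕ)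
      (A : Finset (Fin n → ZMod p)), APFree A → Sym A → ∀ u ∈ A, ∃ v ∈ V,
      (univ.filter (fun i => u i = v)).card < K := by
    intro V
    by_cases hV : p + 1 < 2 * V.card
    · obtain ⟨K, hK⟩ := letters V hV
      exact ⟨K, fun _ => hK⟩
    · exact ⟨0, fun h => absurd h hV⟩
  choose K₀ hK₀ using hK
  set K := ∑ V : Finset (ZMod p), K₀ V with hKdef
  refine ⟨2 ^ p * p ^ (p * K) + p * K, ?_⟩
  intro n A hn hA hS
  have hcover : ∀ u ∈ A, ∃ V ∈ (univ : Finset (ZMod p)).powersetCard h,
      ∀ v, v ∉ V → (univ.filter (fun i => u i = v)).card < K := by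
    intro u hu
    set Vu : Finset (ZMod p) := univ.filter (fun v => K ≤ (univ.filter (fun i => u i = v)).card)
      with hVu
    have hVuc : Vu.card ≤ h := by
      by_contra hlt
      push Not at hlt
      obtain ⟨v, hv, hlt2⟩ := hK₀ Vu (by omega) n A hA hS u hu
      rw [hVu, Finset.mem_filter] at hv
      have h1 : K₀ Vu ≤ K := Finset.single_le_sum (f := K₀) (fun _ _ => Nat.zero_le _)
        (Finset.mem_univ Vu)
      omega
    obtain ⟨V, hV1, hV2, hV3⟩ := Finset.exists_subsuperset_card_eq (Finset.subset_univ Vu) hVuc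
      (by rw [Finset.card_univ, ZMod.card]; omega)
    refine ⟨V, by rw [Finset.mem_powersetCard]; exact ⟨hV2, hV3⟩, ?_⟩
    intro v hv
    by_contra hcon
    push Not at hcon
    exact hv (hV1 (by rw [hVu, Finset.mem_filter]; exact ⟨Finset.mem_univ _, hcon⟩))
  have hsub : A ⊆ ((univ : Finset (ZMod p)).powersetCard h).biUnion
      (fun V => univ.filter (fun u : Fin n → ZMod p => ∀ v, v ∉ V →
      (univ.filter (fun i => u i = v)).card < K)) := by
    intro u hu
    obtain ⟨V, hV, hV2⟩ := hcover u hu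
    rw [Finset.mem_biUnion]
    exact ⟨V, hV, by rw [Finset.mem_filter]; exact ⟨Finset.mem_univ _, hV2⟩⟩
  have hpc : ((univ : Finset (ZMod p)).powersetCard h).card ≤ 2 ^ p := by
    rw [Finset.card_powersetCard, Finset.card_univ, ZMod.card]
    exact Nat.choose_le_two_pow p h
  have h1 : A.card ≤ 2 ^ p * ((n * p) ^ (p * K) * h ^ n) := by
    calc A.card ≤ _ := Finset.card_le_card hsub
      _ ≤ ∑ V ∈ (univ : Finset (ZMod p)).powersetCard h,
          (univ.filter (fun u : Fin n → ZMod p => ∀ v, v ∉ V →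
            (univ.filter (fun i => u i = v)).card < K)).card := Finset.card_biUnion_le
      _ ≤ ∑ _V ∈ (univ : Finset (ZMod p)).powersetCard h, (n * p) ^ (p * K) * h ^ n := by
        apply Finset.sum_le_sum
        intro V hV
        rw [Finset.mem_powersetCard] at hV
        exact card_few hn (by omega) V hV.2
      _ ≤ _ := by
        rw [Finset.sum_const, smul_eq_mul]
        exact Nat.mul_le_mul_right _ hpc
  have h2 : n ^ (p * K) ≤ n ^ (2 ^ p * p ^ (p * K) + p * K) :=
    Nat.pow_le_pow_right hn (Nat.le_add_left _ _)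
  calc A.card ≤ 2 ^ p * ((n * p) ^ (p * K) * h ^ n) := h1
    _ = (2 ^ p * p ^ (p * K)) * n ^ (p * K) * h ^ n := by rw [mul_pow]; ring
    _ ≤ (2 ^ p * p ^ (p * K) + p * K) * n ^ (2 ^ p * p ^ (p * K) + p * K) * h ^ n :=
      Nat.mul_le_mul_right _ (Nat.mul_le_mul (Nat.le_add_right _ _) h2)

/-- the lower bound -/
theorem lower (h : ℕ) (hph : p + 1 = 2 * h) (n : ℕ) : ∃ A : Finset (Fin n → ZMod p),
    APFree A ∧ Sym A ∧ h ^ n ≤ (n * h ^ 2 + 1) * A.card := by
  classical
  set S : Finset (Fin n → ZMod p) := univ.filter (fun x => ∀ i, (x i).val < h) with hS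
  set q : (Fin n → ZMod p) → ℕ := fun x => ∑ i, (x i).val ^ 2 with hq
  have hpp := hp.out.two_le
  have hScard : S.card = h ^ n := by
    have e : {x : Fin n → ZMod p // ∀ i, (x i).val < h} ≃ (Fin n → Fin h) :=
      { toFun := fun x i => ⟨(x.1 i).val, x.2 i⟩
        invFun := fun f => ⟨fun i => ((f i : ℕ) : ZMod p), fun i => by
          rw [ZMod.val_natCast_of_lt (by have := (f i).2; omega)]
          exact (f i).2⟩
        left_inv := by
          intro x
          apply Subtype.ext
          funext i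
          exact ZMod.natCast_zmod_val _
        right_inv := by
          intro f
          funext i
          apply Fin.ext
          show ((f i : ℕ) : ZMod p).val = f i
          exact ZMod.val_natCast_of_lt (by have := (f i).2; omega) }
    have h1 := Fintype.card_congr e
    rw [Fintype.card_fun, Fintype.card_fin, Fintype.card_fin, Fintype.card_subtype] at h1
    exact h1
  have hmaps : ∀ x ∈ S, q x ∈ Finset.range (n * h ^ 2 + 1) := by
    intro x hx
    rw [hS, Finset.mem_filter] at hx
    rw [Finset.mem_range]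
    have : q x ≤ ∑ _i : Fin n, h ^ 2 :=
      Finset.sum_le_sum (fun i _ => Nat.pow_le_pow_left (hx.2 i).le 2)
    rw [Finset.sum_const, Finset.card_univ, Fintype.card_fin, smul_eq_mul] at this
    omega
  obtain ⟨s, hs⟩ : ∃ s, h ^ n ≤ (n * h ^ 2 + 1) * (S.filter (fun x => q x = s)).card := by
    by_contra hcon
    push Not at hcon
    have h1 : S.card = ∑ s ∈ Finset.range (n * h ^ 2 + 1), (S.filter (fun x => q x = s)).card :=
      Finset.card_eq_sum_card_fiberwise hmaps
    have h2 : ∑ s ∈ Finset.range (n * h ^ 2 + 1),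
        ((n * h ^ 2 + 1) * (S.filter (fun x => q x = s)).card) <
        ∑ _s ∈ Finset.range (n * h ^ 2 + 1), h ^ n :=
      Finset.sum_lt_sum_of_nonempty ⟨0, by simp⟩ (fun s _ => hcon s)
    rw [← Finset.mul_sum, ← h1, hScard, Finset.sum_const, Finset.card_range, smul_eq_mul] at h2
    exact lt_irrefl _ h2
  refine ⟨S.filter (fun x => q x = s), ?_, ?_, hs⟩
  · intro x y h1 h2 h3
    rw [Finset.mem_filter, hS, Finset.mem_filter] at h1 h2 h3
    have hmid : ∀ i, (x i).val + ((x + 2 • y) i).val = 2 * ((x + y) i).val := by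
      intro i
      have a1 := h1.1.2 i
      have a2 := h2.1.2 i
      have a3 := h3.1.2 i
      have e1 : ((((x i).val + ((x + 2 • y) i).val : ℕ)) : ZMod p) =
          ((2 * ((x + y) i).val : ℕ) : ZMod p) := by
        push_cast
        rw [ZMod.natCast_zmod_val, ZMod.natCast_zmod_val, ZMod.natCast_zmod_val]
        show x i + (x i + 2 • y i) = 2 * (x i + y i)
        rw [two_nsmul]
        ring
      have e2 := (ZMod.natCast_eq_natCast_iff' _ _ _).1 e1
      rwa [Nat.mod_eq_of_lt (by omega), Nat.mod_eq_of_lt (by omega)] at e2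
    have hsum : ∑ i, (((x i).val : ℤ) - ((x + 2 • y) i).val) ^ 2 = 0 := by
      have e1 : ∀ i, (((x i).val : ℤ) - ((x + 2 • y) i).val) ^ 2 =
          2 * ((x i).val : ℤ) ^ 2 + 2 * (((x + 2 • y) i).val : ℤ) ^ 2 -
            4 * (((x + y) i).val : ℤ) ^ 2 := by
        intro i
        have e2 : ((x i).val : ℤ) + ((x + 2 • y) i).val = 2 * ((x + y) i).val := by
          exact_mod_cast hmid i
        have e3 : (((x + 2 • y) i).val : ℤ) = 2 * ((x + y) i).val - (x i).val := by linarith
        rw [e3]
        ring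
      rw [Finset.sum_congr rfl (fun i _ => e1 i), Finset.sum_sub_distrib, Finset.sum_add_distrib,
        ← Finset.mul_sum, ← Finset.mul_sum, ← Finset.mul_sum]
      have q1 : ∑ i, ((x i).val : ℤ) ^ 2 = s := by exact_mod_cast h1.2
      have q2 : ∑ i, (((x + y) i).val : ℤ) ^ 2 = s := by exact_mod_cast h2.2
      have q3 : ∑ i, (((x + 2 • y) i).val : ℤ) ^ 2 = s := by exact_mod_cast h3.2
      rw [q1, q2, q3]
      ring
    have hz := (Finset.sum_eq_zero_iff_of_nonneg (fun i _ => sq_nonneg _)).1 hsum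
    funext i
    have e1 := hz i (Finset.mem_univ i)
    have e2 : ((x i).val : ℤ) = ((x + 2 • y) i).val := by
      have := pow_eq_zero_iff (n := 2) (by norm_num) |>.1 e1
      linarith
    have e3 : (x i).val = ((x + 2 • y) i).val := by exact_mod_cast e2
    have e4 := hmid i
    have e5 : (x i).val = ((x + y) i).val := by omega
    have e6 : x i = (x + y) i := ZMod.val_injective p e5
    rw [Pi.add_apply] at e6
    show y i = 0
    linear_combination -e6
  · intro σ x hx
    rw [Finset.mem_filter, hS, Finset.mem_filter] at hx ⊢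
    refine ⟨⟨Finset.mem_univ _, fun i => hx.1.2 (σ i)⟩, ?_⟩
    rw [← hx.2]
    simp only [hq]
    exact Equiv.sum_comp σ (fun i => (x i).val ^ 2)

end Pool.Agent.H287R3.RA.AP
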