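import Mathlib

/-!
# Corner-free sets with coordinate symmetries
-/

set_option autoImplicit false
set_option linter.unusedSectionVars false

namespace Pool.Agent.H287R3.RA.Corner

open Finset Equiv

/-- points of `(F_2^n)^2` -/
abbrev Pt (n : ℕ) := (Fin n → ZMod 2) × (Fin n → ZMod 2)

/-- no nontrivial corner -/
def CornerFree {n : ℕ} (A : Finset (Pt n)) : Prop :=
  ∀ x y z : Fin n → ZMod 2, (x, y) ∈ A → (x, y + z) ∈ A → (x + z, y) ∈ A → z = 0

/-- `A` is invariant under the permutation `σ` of the coordinates -/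
def InvUnder {n : ℕ} (σ : Perm (Fin n)) (A : Finset (Pt n)) : Prop :=
  ∀ p ∈ A, ((fun i => p.1 (σ i), fun i => p.2 (σ i)) : Pt n) ∈ A

/-- the three double transpositions of four points -/
def klein : Fin 3 → Perm (Fin 4) :=
  ![swap 0 1 * swap 2 3, swap 0 2 * swap 1 3, swap 0 3 * swap 1 2]

lemma partner : ∀ l : Fin 4 → ZMod 2 × ZMod 2, Function.Injective l →
    (∃ k : Fin 3, ∀ a, l (klein k a) = ((l a).1, (l a).2 + 1)) ∧
    (∃ k : Fin 3, ∀ a, l (klein k a) = ((l a).1 + 1, (l a).2)) := by
  decide +kernel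

lemma corner_of_block {n : ℕ} {A : Finset (Pt n)} (hA : CornerFree A) (b : Fin 4 ↪ Fin n)
    (hinv : ∀ k : Fin 3, InvUnder ((klein k).viaEmbedding b) A) (p : Pt n) (hp : p ∈ A)
    (hl : Function.Injective (fun a => ((p.1 (b a), p.2 (b a)) : ZMod 2 × ZMod 2))) : False := by
  classical
  obtain ⟨x, y⟩ := p
  obtain ⟨⟨k, hk⟩, ⟨k', hk'⟩⟩ := partner _ hl
  set z : Fin n → ZMod 2 := fun c => if c ∈ Set.range b then 1 else 0 with hz
  have hv : ((x, y + z) : Pt n) ∈ A := by
    have h1 := hinv k _ hp
    have e : ((fun i => x ((klein k).viaEmbedding b i), fun i => y ((klein k).viaEmbedding b i)) :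
        Pt n) = (x, y + z) := by
      apply Prod.ext
      · funext c
        by_cases hc : c ∈ Set.range b
        · obtain ⟨a, rfl⟩ := hc
          show x ((klein k).viaEmbedding b (b a)) = x (b a)
          rw [Equiv.Perm.viaEmbedding_apply]
          exact congrArg Prod.fst (hk a)
        · show x ((klein k).viaEmbedding b c) = x c
          rw [Equiv.Perm.viaEmbedding_apply_of_notMem _ _ _ hc]
      · funext c
        by_cases hc : c ∈ Set.range b
        · have hzc : z c = 1 := by simp only [hz]; rw [if_pos hc]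
          obtain ⟨a, rfl⟩ := hc
          show y ((klein k).viaEmbedding b (b a)) = y (b a) + z (b a)
          rw [Equiv.Perm.viaEmbedding_apply, hzc]
          exact congrArg Prod.snd (hk a)
        · show y ((klein k).viaEmbedding b c) = y c + z c
          rw [Equiv.Perm.viaEmbedding_apply_of_notMem _ _ _ hc]
          simp only [hz]
          rw [if_neg hc, add_zero]
    rw [e] at h1
    exact h1
  have hw : ((x + z, y) : Pt n) ∈ A := by
    have h1 := hinv k' _ hp
    have e : ((fun i => x ((klein k').viaEmbedding b i), fun i => y ((klein k').viaEmbedding b i)) :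
        Pt n) = (x + z, y) := by
      apply Prod.ext
      · funext c
        by_cases hc : c ∈ Set.range b
        · have hzc : z c = 1 := by simp only [hz]; rw [if_pos hc]
          obtain ⟨a, rfl⟩ := hc
          show x ((klein k').viaEmbedding b (b a)) = x (b a) + z (b a)
          rw [Equiv.Perm.viaEmbedding_apply, hzc]
          exact congrArg Prod.fst (hk' a)
        · show x ((klein k').viaEmbedding b c) = x c + z c
          rw [Equiv.Perm.viaEmbedding_apply_of_notMem _ _ _ hc]
          simp only [hz]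
          rw [if_neg hc, add_zero]
      · funext c
        by_cases hc : c ∈ Set.range b
        · obtain ⟨a, rfl⟩ := hc
          show y ((klein k').viaEmbedding b (b a)) = y (b a)
          rw [Equiv.Perm.viaEmbedding_apply]
          exact congrArg Prod.snd (hk' a)
        · show y ((klein k').viaEmbedding b c) = y c
          rw [Equiv.Perm.viaEmbedding_apply_of_notMem _ _ _ hc]
    rw [e] at h1
    exact h1
  have h0 := hA x y z hp hv hw
  have h1 := congrFun h0 (b 0)
  simp only [hz] at h1
  rw [if_pos ⟨0, rfl⟩] at h1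
  have h2 : (1 : ZMod 2) = 0 := h1
  exact absurd h2 (by decide)

lemma card_noninj : Fintype.card {f : Fin 4 → ZMod 2 × ZMod 2 // ¬ Function.Injective f} = 232 := by
  decide +kernel

/-- blocks -/
theorem blocks {n t : ℕ} {A : Finset (Pt n)} (hA : CornerFree A) (B : Fin t × Fin 4 ↪ Fin n)
    (hinv : ∀ (i : Fin t) (k : Fin 3),
      InvUnder ((klein k).viaEmbedding ⟨fun a => B (i, a), fun a a' h => by simpa using h⟩) A) :
    32 ^ t * A.card ≤ 29 ^ t * 4 ^ n := by
  classical
  have hni : ∀ p ∈ A, ∀ i : Fin t,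
      ¬ Function.Injective (fun a => ((p.1 (B (i, a)), p.2 (B (i, a))) : ZMod 2 × ZMod 2)) :=
    fun p hp i hl => corner_of_block hA ⟨fun a => B (i, a), fun a a' h => by simpa using h⟩
      (hinv i) p hp hl
  let f : A → (Fin t → {f : Fin 4 → ZMod 2 × ZMod 2 // ¬ Function.Injective f}) ×
      ({c : Fin n // c ∉ Set.range B} → ZMod 2 × ZMod 2) := fun p =>
    (fun i => ⟨fun a => (p.1.1 (B (i, a)), p.1.2 (B (i, a))), hni p p.2 i⟩,
      fun c => (p.1.1 c, p.1.2 c))
  have hf : Function.Injective f := by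
    intro p q hpq
    have h1 := congrArg Prod.fst hpq
    have h2 := congrArg Prod.snd hpq
    have h3 : ∀ c : Fin n, p.1.1 c = q.1.1 c ∧ p.1.2 c = q.1.2 c := by
      intro c
      by_cases hc : c ∈ Set.range B
      · obtain ⟨⟨i, a⟩, rfl⟩ := hc
        have h4 := congrFun (congrArg Subtype.val (congrFun h1 i)) a
        exact ⟨congrArg Prod.fst h4, congrArg Prod.snd h4⟩
      · have h4 := congrFun h2 ⟨c, hc⟩
        exact ⟨congrArg Prod.fst h4, congrArg Prod.snd h4⟩
    apply Subtype.ext
    apply Prod.ext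
    · funext c; exact (h3 c).1
    · funext c; exact (h3 c).2
  have h1 := Fintype.card_le_of_injective f hf
  rw [Fintype.card_coe, Fintype.card_prod, Fintype.card_fun, Fintype.card_fun, card_noninj,
    Fintype.card_fin, Fintype.card_prod, ZMod.card] at h1
  have h2 : Fintype.card {c : Fin n // c ∉ Set.range B} + 4 * t = n := by
    have h3 := Fintype.card_subtype_compl (fun c : Fin n => c ∈ Set.range B)
    have h4 : Fintype.card {c : Fin n // c ∈ Set.range B} = 4 * t := by
      have e : Fin t × Fin 4 ≃ {c : Fin n // c ∈ Set.range B} := Equiv.ofInjective B B.injective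
      rw [← Fintype.card_congr e, Fintype.card_prod, Fintype.card_fin, Fintype.card_fin, mul_comm]
    have h5 : Fintype.card {c : Fin n // c ∈ Set.range B} ≤ Fintype.card (Fin n) :=
      Fintype.card_subtype_le _
    rw [h4, Fintype.card_fin] at h3
    rw [h4, Fintype.card_fin] at h5
    omega
  set r := Fintype.card {c : Fin n // c ∉ Set.range B} with hr
  calc 32 ^ t * A.card ≤ 32 ^ t * (232 ^ t * (2 * 2) ^ r) := Nat.mul_le_mul_left _ h1
    _ = 29 ^ t * ((4 ^ 4) ^ t * 4 ^ r) := by
      rw [← mul_assoc, ← mul_pow, ← mul_assoc, ← mul_pow]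
      norm_num
    _ = 29 ^ t * 4 ^ n := by
      rw [← pow_mul, ← pow_add, ← h2, add_comm r]

lemma card_ne : ∀ c : ZMod 2 × ZMod 2, Fintype.card {d : ZMod 2 × ZMod 2 // d ≠ c} = 3 := by
  decide +kernel

lemma key3 : ∀ u v w : ZMod 2, w ≠ 0 → (u, v) ≠ ((1, 1) : ZMod 2 × ZMod 2) →
    (u, v + w) ≠ ((1, 1) : ZMod 2 × ZMod 2) → (u + w, v) ≠ ((1, 1) : ZMod 2 × ZMod 2) →
    (u, v) = ((0, 0) : ZMod 2 × ZMod 2) := by
  decide +kernel

/-- all letters occur -/
theorem full_sym {n : ℕ} {A : Finset (Pt n)} (hA : CornerFree A)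
    (hinv : ∀ σ : Perm (Fin n), InvUnder σ A) : A.card ≤ 4 * 3 ^ n := by
  classical
  have hmiss : ∀ p ∈ A, ∃ c : ZMod 2 × ZMod 2, ∀ i, (p.1 i, p.2 i) ≠ c := by
    intro p hp
    by_contra hcon
    push Not at hcon
    choose pos hpos using hcon
    have e : Fin 4 ≃ ZMod 2 × ZMod 2 := Fintype.equivOfCardEq (by simp)
    have hinj : Function.Injective (fun a : Fin 4 => pos (e a)) := by
      intro a a' h
      apply e.injective
      rw [← hpos (e a), ← hpos (e a')]
      simp only at h
      rw [h]
    refine corner_of_block hA ⟨fun a => pos (e a), hinj⟩ (fun k => hinv _) p hp ?_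
    intro a a' h
    apply e.injective
    rw [← hpos (e a), ← hpos (e a')]
    exact h
  have hsub : A ⊆ (univ : Finset (ZMod 2 × ZMod 2)).biUnion
      (fun c => univ.filter (fun p : Pt n => ∀ i, (p.1 i, p.2 i) ≠ c)) := by
    intro p hp
    obtain ⟨c, hc⟩ := hmiss p hp
    rw [Finset.mem_biUnion]
    exact ⟨c, Finset.mem_univ _, by rw [Finset.mem_filter]; exact ⟨Finset.mem_univ _, hc⟩⟩
  have hcard : ∀ c : ZMod 2 × ZMod 2,
      (univ.filter (fun p : Pt n => ∀ i, (p.1 i, p.2 i) ≠ c)).card ≤ 3 ^ n := by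
    intro c
    let f : {p : Pt n // ∀ i, (p.1 i, p.2 i) ≠ c} → (Fin n → {d : ZMod 2 × ZMod 2 // d ≠ c}) :=
      fun p i => ⟨(p.1.1 i, p.1.2 i), p.2 i⟩
    have hf : Function.Injective f := by
      intro p q hpq
      apply Subtype.ext
      apply Prod.ext
      · funext i
        exact congrArg Prod.fst (congrArg Subtype.val (congrFun hpq i))
      · funext i
        exact congrArg Prod.snd (congrArg Subtype.val (congrFun hpq i))
    have h1 := Fintype.card_le_of_injective f hf
    rw [Fintype.card_fun, Fintype.card_fin, Fintype.card_subtype] at h1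
    rwa [card_ne c] at h1
  calc A.card ≤ _ := Finset.card_le_card hsub
    _ ≤ ∑ c : ZMod 2 × ZMod 2, (univ.filter (fun p : Pt n => ∀ i, (p.1 i, p.2 i) ≠ c)).card :=
      Finset.card_biUnion_le
    _ ≤ ∑ _c : ZMod 2 × ZMod 2, 3 ^ n := Finset.sum_le_sum (fun c _ => hcard c)
    _ = 4 * 3 ^ n := by simp

/-- a symmetric corner-free set -/
theorem exists_sym (n : ℕ) : ∃ A : Finset (Pt n), CornerFree A ∧
    (∀ σ : Perm (Fin n), InvUnder σ A) ∧ 3 ^ n ≤ (n + 1) * A.card := by
  classical
  set z0 : Pt n → ℕ := fun p => (univ.filter (fun i => (p.1 i, p.2 i) = (0, 0))).card with hz0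
  set S : Finset (Pt n) := univ.filter (fun p => ∀ i, (p.1 i, p.2 i) ≠ (1, 1)) with hS
  have hScard : S.card = 3 ^ n := by
    have e : {p : Pt n // ∀ i, (p.1 i, p.2 i) ≠ (1, 1)} ≃
        (Fin n → {d : ZMod 2 × ZMod 2 // d ≠ (1, 1)}) :=
      { toFun := fun p i => ⟨(p.1.1 i, p.1.2 i), p.2 i⟩
        invFun := fun f => ⟨(fun i => (f i).1.1, fun i => (f i).1.2), fun i => (f i).2⟩
        left_inv := fun _ => rfl
        right_inv := fun _ => rfl }
    have h1 := Fintype.card_congr e
    rw [Fintype.card_fun, Fintype.card_fin, Fintype.card_subtype] at h1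
    have h2 : Fintype.card {d : ZMod 2 × ZMod 2 // d ≠ (1, 1)} = 3 := by decide +kernel
    rwa [h2] at h1
  have hmaps : ∀ p ∈ S, z0 p ∈ Finset.range (n + 1) := by
    intro p _
    rw [Finset.mem_range]
    have : z0 p ≤ n := by
      simp only [hz0]
      refine (Finset.card_le_univ _).trans ?_
      rw [Fintype.card_fin]
    omega
  -- a sharper pigeonhole
  obtain ⟨k, hk⟩ : ∃ k, 3 ^ n ≤ (n + 1) * (S.filter (fun p => z0 p = k)).card := by
    by_contra hcon
    push Not at hcon
    have h1 : S.card = ∑ k ∈ Finset.range (n + 1), (S.filter (fun p => z0 p = k)).card :=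
      Finset.card_eq_sum_card_fiberwise hmaps
    have h2 : ∑ k ∈ Finset.range (n + 1), ((n + 1) * (S.filter (fun p => z0 p = k)).card) <
        ∑ _k ∈ Finset.range (n + 1), 3 ^ n :=
      Finset.sum_lt_sum_of_nonempty ⟨0, by simp⟩ (fun k _ => hcon k)
    rw [← Finset.mul_sum, ← h1, hScard, Finset.sum_const, Finset.card_range, smul_eq_mul] at h2
    exact lt_irrefl _ h2
  refine ⟨S.filter (fun p => z0 p = k), ?_, ?_, hk⟩
  · intro x y z hp hv hw
    rw [Finset.mem_filter, hS, Finset.mem_filter] at hp hv hw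
    have hkey : ∀ i, z i ≠ 0 → (x i, y i) = (0, 0) := by
      intro i hi
      have a1 := hp.1.2 i
      have a2 := hv.1.2 i
      have a3 := hw.1.2 i
      exact key3 _ _ _ hi a1 a2 a3
    by_contra hne
    obtain ⟨i, hi⟩ : ∃ i, z i ≠ 0 := by
      by_contra hcon
      push Not at hcon
      exact hne (funext hcon)
    have hlt : z0 (x, y + z) < z0 (x, y) := by
      simp only [hz0]
      apply Finset.card_lt_card
      refine ⟨?_, ?_⟩
      · intro c hc
        rw [Finset.mem_filter] at hc ⊢
        refine ⟨Finset.mem_univ _, ?_⟩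
        by_cases hzc : z c = 0
        · have := hc.2
          simp only [Pi.add_apply, hzc, add_zero] at this
          exact this
        · exact hkey c hzc
      · intro hsub
        have h1 : i ∈ univ.filter (fun i => ((x, y).1 i, (x, y).2 i) = ((0, 0) : ZMod 2 × ZMod 2)) := by
          rw [Finset.mem_filter]
          exact ⟨Finset.mem_univ _, hkey i hi⟩
        have h2 := hsub h1
        rw [Finset.mem_filter] at h2
        have h3 := congrArg Prod.snd h2.2
        have h4 := congrArg Prod.snd (hkey i hi)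
        simp only [Pi.add_apply] at h3 h4
        rw [h4, zero_add] at h3
        exact hi h3
    rw [hp.2, hv.2] at hlt
    exact lt_irrefl _ hlt
  · intro σ p hp
    rw [Finset.mem_filter, hS, Finset.mem_filter] at hp ⊢
    refine ⟨⟨Finset.mem_univ _, fun i => hp.1.2 (σ i)⟩, ?_⟩
    rw [← hp.2]
    simp only [hz0]
    apply Finset.card_bij (fun i _ => σ i)
    · intro i hi
      rw [Finset.mem_filter] at hi ⊢
      exact ⟨Finset.mem_univ _, hi.2⟩
    · intro i _ i' _ h
      exact σ.injective h
    · intro c hc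
      rw [Finset.mem_filter] at hc
      refine ⟨σ⁻¹ c, ?_, by simp⟩
      rw [Finset.mem_filter]
      refine ⟨Finset.mem_univ _, ?_⟩
      simpa using hc.2

end Pool.Agent.H287R3.RA.Corner
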