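import Pool.Agent.H287R3.RA.Rigid

/-!
# Counting points with given supports
-/

set_option autoImplicit false
set_option linter.unusedSectionVars false

namespace Pool.Agent.H287R3.RA

open Finset Equiv Equiv.Perm

variable {α : Type} [Fintype α] [DecidableEq α]
variable {X : Type} [Fintype X] [DecidableEq X] [MulAction (alternatingGroup α) X]

theorem card_bad (R : Finset α) (j : ℕ) (hj : ∀ x : X, (ms α x).card ≤ j)
    (hbig : ∀ x : X, 2 * (ms α x).card + 3 ≤ Fintype.card α) (hα : 3 ≤ Fintype.card α) :
    Fintype.card α * (univ.filter (fun x : X => ¬ Disjoint (ms α x) R)).card ≤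
      R.card * (j * Fintype.card X) := by
  classical
  set n : α → ℕ := fun b => (univ.filter (fun x : X => b ∈ ms α x)).card with hn
  have heq : ∀ b b' : α, n b = n b' := by
    intro b b'
    obtain ⟨g, hg⟩ := exists_even {b} (fun _ => b') (by simp) (by
      rw [Finset.card_singleton]
      omega)
    have hgb : (g : Perm α) b = b' := hg b (by simp)
    simp only [hn]
    apply Finset.card_bij (fun x _ => g • x)
    · intro x hx
      rw [Finset.mem_filter] at hx ⊢
      refine ⟨Finset.mem_univ _, ?_⟩
      rw [ms_smul g x hbig, ← hgb]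
      exact Finset.mem_image_of_mem _ hx.2
    · intro x _ x' _ h
      exact MulAction.injective g h
    · intro y hy
      rw [Finset.mem_filter] at hy
      refine ⟨g⁻¹ • y, ?_, by rw [smul_inv_smul]⟩
      rw [Finset.mem_filter]
      refine ⟨Finset.mem_univ _, ?_⟩
      have h1 := ms_smul g (g⁻¹ • y) hbig
      rw [smul_inv_smul] at h1
      have h2 := hy.2
      rw [h1, Finset.mem_image] at h2
      obtain ⟨z, hz, hz2⟩ := h2
      rw [← hgb] at hz2
      rwa [(g : Perm α).injective hz2] at hz
  have hsum : ∑ b : α, n b = ∑ x : X, (ms α x).card := by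
    simp only [hn, Finset.card_filter]
    rw [Finset.sum_comm]
    apply Finset.sum_congr rfl
    intro x _
    rw [← Finset.card_filter, Finset.filter_mem_eq_inter, Finset.univ_inter]
  have hle : ∑ x : X, (ms α x).card ≤ j * Fintype.card X := by
    calc ∑ x : X, (ms α x).card ≤ ∑ _x : X, j := Finset.sum_le_sum (fun x _ => hj x)
      _ = j * Fintype.card X := by rw [Finset.sum_const, Finset.card_univ, smul_eq_mul, mul_comm]
  have hne : Nonempty α := Fintype.card_pos_iff.1 (by omega)
  obtain ⟨b₀⟩ := hne
  have hm : Fintype.card α * n b₀ ≤ j * Fintype.card X := by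
    have h1 : ∑ b : α, n b = Fintype.card α * n b₀ := by
      rw [Finset.sum_congr rfl (fun b _ => heq b b₀), Finset.sum_const, Finset.card_univ,
        smul_eq_mul]
    omega
  have hbad : (univ.filter (fun x : X => ¬ Disjoint (ms α x) R)).card ≤ R.card * n b₀ := by
    have h1 : (univ.filter (fun x : X => ¬ Disjoint (ms α x) R)) ⊆
        R.biUnion (fun b => univ.filter (fun x : X => b ∈ ms α x)) := by
      intro x hx
      rw [Finset.mem_filter, Finset.not_disjoint_iff] at hx
      obtain ⟨_, b, hb1, hb2⟩ := hx
      rw [Finset.mem_biUnion]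
      exact ⟨b, hb2, by rw [Finset.mem_filter]; exact ⟨Finset.mem_univ _, hb1⟩⟩
    calc _ ≤ _ := Finset.card_le_card h1
      _ ≤ ∑ b ∈ R, n b := Finset.card_biUnion_le
      _ = R.card * n b₀ := by
        rw [Finset.sum_congr rfl (fun b _ => heq b b₀), Finset.sum_const, smul_eq_mul]
  calc Fintype.card α * _ ≤ Fintype.card α * (R.card * n b₀) := Nat.mul_le_mul_left _ hbad
    _ = R.card * (Fintype.card α * n b₀) := by ring
    _ ≤ _ := Nat.mul_le_mul_left _ hm

theorem pow_le_aux {a b j : ℕ} (ha : a ≤ j) (hb : b ≤ j) : a ^ b ≤ j ^ j := by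
  rcases Nat.eq_zero_or_pos j with h | h
  · subst h
    obtain rfl : a = 0 := by omega
    obtain rfl : b = 0 := by omega
    exact le_rfl
  · exact (Nat.pow_le_pow_left ha b).trans (Nat.pow_le_pow_right h hb)

theorem card_sub (D : Finset α) (j : ℕ) (hD : D.card ≤ j) (hj : ∀ x : X, (ms α x).card ≤ j)
    (hbig : ∀ x : X, 2 * (ms α x).card + 3 ≤ Fintype.card α) :
    (univ.filter (fun x : X => ms α x ⊆ D)).card ≤
      j ^ j * Nat.card (MulAction.orbitRel.Quotient (alternatingGroup α) X) := by
  classical
  have hfin : Finite (MulAction.orbitRel.Quotient (alternatingGroup α) X) := inferInstance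
  have hft : Fintype (MulAction.orbitRel.Quotient (alternatingGroup α) X) := Fintype.ofFinite _
  rw [Nat.card_eq_fintype_card, ← Finset.card_univ]
  have hdec : DecidableEq (MulAction.orbitRel.Quotient (alternatingGroup α) X) :=
    Classical.decEq _
  set cl : X → MulAction.orbitRel.Quotient (alternatingGroup α) X := fun x => Quotient.mk'' x
    with hcl
  refine Finset.card_le_mul_card_image_of_maps_to (f := cl)
    (fun x _ => Finset.mem_univ _) (j ^ j) ?_
  intro c _
  obtain ⟨Sc, hSc⟩ : ∃ Sc : Finset X, Sc =
    (univ.filter (fun x : X => ms α x ⊆ D)).filter (fun x : X => cl x = c) := ⟨_, rfl⟩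
  rw [← hSc]
  rcases Sc.eq_empty_or_nonempty with h0 | ⟨x₀, hx₀⟩
  · rw [h0, Finset.card_empty]
    exact Nat.zero_le _
  · have horb : ∀ x : X, ∃ g : alternatingGroup α, x ∈ Sc → x = g • x₀ := by
      intro x
      by_cases hx : x ∈ Sc
      · rw [hSc, Finset.mem_filter] at hx hx₀
        have h1 : cl x = cl x₀ := hx.2.trans hx₀.2.symm
        have h2 : MulAction.orbitRel (alternatingGroup α) X x x₀ := Quotient.exact h1
        rw [MulAction.orbitRel_apply] at h2
        obtain ⟨g, hg⟩ := h2
        exact ⟨g, fun _ => hg.symm⟩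
      · exact ⟨1, fun h => absurd h hx⟩
    choose g hg using horb
    have hmem : ∀ x ∈ Sc, ∀ a ∈ ms α x₀, (g x : Perm α) a ∈ D := by
      intro x hx a ha
      have h1 : ms α x ⊆ D := by
        rw [hSc, Finset.mem_filter, Finset.mem_filter] at hx
        exact hx.1.2
      apply h1
      have e : ms α x = (ms α x₀).image (g x : Perm α) := by
        conv_lhs => rw [hg x hx]
        exact ms_smul (g x) x₀ hbig
      rw [e]
      exact Finset.mem_image_of_mem _ ha
    let f : Sc → (ms α x₀ → D) := fun x a => ⟨(g x : Perm α) a, hmem x x.2 a a.2⟩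
    have hf : Function.Injective f := by
      intro x x' hxx
      apply Subtype.ext
      rw [hg x x.2, hg x' x'.2]
      apply agree_smul (ms_supports x₀)
      intro a ha
      have := congrFun hxx ⟨a, ha⟩
      exact congrArg Subtype.val this
    have h3 := Fintype.card_le_of_injective f hf
    rw [Fintype.card_coe, Fintype.card_fun, Fintype.card_coe, Fintype.card_coe] at h3
    exact h3.trans (pow_le_aux hD (hj x₀))

end Pool.Agent.H287R3.RA
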