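import Pool.Agent.H287R3.RA.Count

/-!
# Non-rigidity: final bounds
-/

set_option autoImplicit false
set_option linter.unusedSectionVars false

namespace Pool.Agent.H287R3.RA

open Finset Equiv Equiv.Perm

variable {X Y : Type} [Fintype X] [Fintype Y] {F : Type} [Field F]

theorem main_explicit (m j : ℕ) [MulAction (alternatingGroup (Fin m)) X]
    [MulAction (alternatingGroup (Fin m)) Y] (A : Matrix X Y F)
    (hA : ∀ (g : alternatingGroup (Fin m)) (x : X) (y : Y), A (g • x) (g • y) = A x y)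
    (hX : Fintype.card X < m.choose (j + 1)) (hY : Fintype.card Y < m.choose (j + 1))
    (hX2 : 12 * Nat.log 2 (Fintype.card X) + 7 ≤ m) (hY2 : 12 * Nat.log 2 (Fintype.card Y) + 7 ≤ m)
    (hj : 3 * j + 2 ≤ m) :
    ∃ L : Matrix X Y F, m * L.rank ≤ j ^ 2 * (Fintype.card X + Fintype.card Y) ∧
      ∀ y, Nat.card {x // A x y ≠ L x y} ≤
        j ^ j * Nat.card (MulAction.orbitRel.Quotient (alternatingGroup (Fin m)) X) := by
  classical
  have hbX : ∀ x : X, 2 * (ms (Fin m) x).card + 3 ≤ Fintype.card (Fin m) := by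
    intro x
    have := ms_card (α := Fin m) x
    rw [Fintype.card_fin]
    omega
  have hbY : ∀ y : Y, 2 * (ms (Fin m) y).card + 3 ≤ Fintype.card (Fin m) := by
    intro x
    have := ms_card (α := Fin m) x
    rw [Fintype.card_fin]
    omega
  have hcX : ∀ x : X, (ms (Fin m) x).card ≤ j := ms_card_le j hbX (by rwa [Fintype.card_fin])
  have hcY : ∀ y : Y, (ms (Fin m) y).card ≤ j := ms_card_le j hbY (by rwa [Fintype.card_fin])
  obtain ⟨R, -, hR⟩ := Finset.exists_subset_card_eq (s := (univ : Finset (Fin m))) (n := j)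
    (by rw [Finset.card_univ, Fintype.card_fin]; omega)
  obtain ⟨L, hL1, hL2⟩ := decomp A hA R (by rwa [hR]) (by rwa [hR])
    (by rw [hR, Fintype.card_fin]; exact hj) hbX
  refine ⟨L, ?_, ?_⟩
  · have h1 := card_bad (X := X) R j hcX hbX (by rw [Fintype.card_fin]; omega)
    have h2 := card_bad (X := Y) R j hcY hbY (by rw [Fintype.card_fin]; omega)
    rw [hR, Fintype.card_fin] at h1 h2
    calc m * L.rank ≤ m * _ := Nat.mul_le_mul_left _ hL1
      _ ≤ j * (j * Fintype.card X) + j * (j * Fintype.card Y) := by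
        rw [mul_add]
        exact Nat.add_le_add h1 h2
      _ = _ := by ring
  · intro y
    have h1 := card_sub (X := X) (ms (Fin m) y) j (hcY y) hcX hbX
    refine le_trans ?_ h1
    rw [Nat.card_eq_fintype_card, Fintype.card_subtype]
    apply Finset.card_le_card
    intro x hx
    rw [Finset.mem_filter] at hx ⊢
    exact ⟨Finset.mem_univ _, hL2 x y hx.2⟩

theorem choice (s N m : ℕ) (hs : 1 ≤ s) (hN : 1 ≤ N)
    (hm : (2 ^ (s + 1) + 12) * (Nat.log 2 N + 1) ^ (s + 1) ≤ m) :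
    ∃ j : ℕ, (j ^ j) ^ s ≤ N ∧ j ≤ Nat.log 2 N + 1 ∧ N < m.choose (j + 1) := by
  classical
  set l := Nat.log 2 N + 1 with hl
  have hbound : ∀ j : ℕ, (j ^ j) ^ s ≤ N → j ≤ l := by
    intro j hj
    rcases Nat.lt_or_ge j 2 with h | h
    · omega
    · have h1 : 2 ^ j ≤ N := by
        calc 2 ^ j ≤ j ^ j := Nat.pow_le_pow_left h j
          _ = (j ^ j) ^ 1 := (pow_one _).symm
          _ ≤ (j ^ j) ^ s := Nat.pow_le_pow_right (by positivity) hs
          _ ≤ N := hj
      have h2 := Nat.le_log_of_pow_le (b := 2) (by norm_num) h1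
      omega
  -- the largest `j`
  obtain ⟨j, hj1, hj2⟩ : ∃ j, (j ^ j) ^ s ≤ N ∧ N < ((j + 1) ^ (j + 1)) ^ s := by
    by_contra hcon
    push Not at hcon
    have h1 : ∀ j : ℕ, (j ^ j) ^ s ≤ N := by
      intro j
      induction j with
      | zero => simpa using hN
      | succ j ih => exact hcon j ih
    have := hbound (l + 1) (h1 (l + 1))
    omega
  refine ⟨j, hj1, hbound j hj1, ?_⟩
  have hjl := hbound j hj1
  have hm1 : (j + 1) ^ (s + 1) + (j + 1) ≤ m + 1 := by
    have h1 : (j + 1) ^ (s + 1) ≤ 2 ^ (s + 1) * l ^ (s + 1) := by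
      rw [← mul_pow]
      apply Nat.pow_le_pow_left
      omega
    have h2 : l ≤ l ^ (s + 1) := Nat.le_self_pow (by omega) l
    have h3 : (2 ^ (s + 1) + 12) * l ^ (s + 1) = 2 ^ (s + 1) * l ^ (s + 1) + 12 * l ^ (s + 1) := by
      ring
    omega
  have h1 : (m + 1 - (j + 1)) ^ (j + 1) ≤ (j + 1).factorial * m.choose (j + 1) := by
    have := Nat.pow_sub_le_descFactorial m (j + 1)
    rwa [Nat.descFactorial_eq_factorial_mul_choose] at this
  have h2 : ((j + 1) ^ (s + 1)) ^ (j + 1) ≤ (m + 1 - (j + 1)) ^ (j + 1) :=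
    Nat.pow_le_pow_left (by omega) _
  have h3 : (j + 1).factorial ≤ (j + 1) ^ (j + 1) := Nat.factorial_le_pow _
  have h4 : (j + 1) ^ (j + 1) * ((j + 1) ^ (j + 1)) ^ s ≤ (j + 1) ^ (j + 1) * m.choose (j + 1) := by
    calc (j + 1) ^ (j + 1) * ((j + 1) ^ (j + 1)) ^ s = ((j + 1) ^ (s + 1)) ^ (j + 1) := by
          rw [← pow_succ', ← pow_mul, ← pow_mul, mul_comm]
      _ ≤ _ := h2
      _ ≤ _ := h1
      _ ≤ _ := Nat.mul_le_mul_right _ h3
  exact hj2.trans_le (Nat.le_of_mul_le_mul_left h4 (by positivity))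

end Pool.Agent.H287R3.RA
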