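import Pool.Agent.H287R3.RA.Count

/-!
# Hadamard matrices have no large alternating symmetry
-/

set_option autoImplicit false
set_option linter.unusedSectionVars false

namespace Pool.Agent.H287R3.RA

open Finset Equiv Equiv.Perm

variable {α : Type} [Fintype α] [DecidableEq α]
variable {X Y : Type} [Fintype X] [Fintype Y] [DecidableEq X] [DecidableEq Y]
  [MulAction (alternatingGroup α) X] [MulAction (alternatingGroup α) Y]

/-- two rows of the orbit of `x` differ at few columns -/
theorem rows_close (H : X → Y → ℤ)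
    (hH : ∀ (g : alternatingGroup α) (x : X) (y : Y), H (g • x) (g • y) = H x y)
    (x x₀ : X) (hx : ∃ g : alternatingGroup α, g • x ≠ x) (j : ℕ)
    (hjX : ∀ x : X, (ms α x).card ≤ j) (hjY : ∀ y : Y, (ms α y).card ≤ j)
    (hj : 2 * j + 3 ≤ Fintype.card α) :
    ∃ x' : X, x' ≠ x ∧ x' ≠ x₀ ∧
      Fintype.card α * (univ.filter (fun y => H x y ≠ H x' y)).card ≤ 2 * (j * Fintype.card Y) := by
  classical
  have hbX : ∀ x : X, 2 * (ms α x).card + 3 ≤ Fintype.card α := fun x => by
    have := hjX x
    omega
  have hbY : ∀ y : Y, 2 * (ms α y).card + 3 ≤ Fintype.card α := fun y => by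
    have := hjY y
    omega
  have hne : (ms α x).Nonempty := by
    rw [Finset.nonempty_iff_ne_empty]
    intro h0
    obtain ⟨g, hg⟩ := hx
    apply hg
    apply ms_supports x
    rw [h0]
    simp
  obtain ⟨a, ha⟩ := hne
  have hjx := hjX x
  have hT : 1 < ((ms α x)ᶜ).card := by
    rw [Finset.card_compl]
    omega
  rw [Finset.one_lt_card] at hT
  obtain ⟨t₁, ht₁, t₂, ht₂, ht⟩ := hT
  rw [Finset.mem_compl] at ht₁ ht₂
  have hmove : ∀ (D : Finset α) (t : α), t ∉ ms α x → t ∉ D → D.card ≤ j → a ∉ D →
      ∃ g : alternatingGroup α, (g : Perm α) a = t ∧ (∀ b ∈ ms α x, b ≠ a → (g : Perm α) b = b) ∧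
        ∀ b ∈ D, (g : Perm α) b = b := by
    intro D t ht htD hD haD
    obtain ⟨g, hg⟩ := exists_even (ms α x ∪ D) (fun b => if b = a then t else b) (by
      have haux : ∀ z, z ∈ ms α x ∪ D → z ≠ a → z ≠ t := by
        intro z hz _ hzt
        rw [Finset.mem_union] at hz
        rcases hz with hz | hz
        · exact ht (hzt ▸ hz)
        · exact htD (hzt ▸ hz)
      intro u hu v hv huv
      simp only at huv
      by_cases hua : u = a <;> by_cases hva : v = a
      · rw [hua, hva]
      · rw [if_pos hua, if_neg hva] at huv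
        exact absurd huv.symm (haux v hv hva)
      · rw [if_neg hua, if_pos hva] at huv
        exact absurd huv (haux u hu hua)
      · rwa [if_neg hua, if_neg hva] at huv) (by
      have := Finset.card_union_le (ms α x) D
      omega)
    refine ⟨g, ?_, ?_, ?_⟩
    · rw [hg a (Finset.mem_union_left _ ha), if_pos rfl]
    · intro b hb hba
      rw [hg b (Finset.mem_union_left _ hb), if_neg hba]
    · intro b hb
      rw [hg b (Finset.mem_union_right _ hb), if_neg]
      rintro rfl
      exact haD hb
  obtain ⟨g₁, hg₁, hg₁', -⟩ := hmove ∅ t₁ ht₁ (by simp) (by simp) (by simp)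
  obtain ⟨g₂, hg₂, hg₂', -⟩ := hmove ∅ t₂ ht₂ (by simp) (by simp) (by simp)
  have key : ∀ (t : α) (g : alternatingGroup α), t ∉ ms α x → (g : Perm α) a = t →
      (∀ b ∈ ms α x, b ≠ a → (g : Perm α) b = b) → t ∈ ms α (g • x) ∧ g • x ≠ x ∧
      Fintype.card α * (univ.filter (fun y => H x y ≠ H (g • x) y)).card ≤
        2 * (j * Fintype.card Y) := by
    intro t g ht hga hgb
    have h1 : t ∈ ms α (g • x) := by
      rw [ms_smul g x hbX, ← hga]
      exact Finset.mem_image_of_mem _ ha
    refine ⟨h1, fun h => ht (by rw [h] at h1; exact h1), ?_⟩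
    have hsub : univ.filter (fun y => H x y ≠ H (g • x) y) ⊆
        univ.filter (fun y : Y => ¬ Disjoint (ms α y) {a}) ∪
          univ.filter (fun y : Y => ¬ Disjoint (ms α y) {t}) := by
      intro y hy
      rw [Finset.mem_filter] at hy
      rw [Finset.mem_union, Finset.mem_filter, Finset.mem_filter]
      by_contra hcon
      rw [not_or, not_and, not_and, not_not, not_not] at hcon
      have ha' : a ∉ ms α y := by
        have := hcon.1 (Finset.mem_univ _)
        rwa [Finset.disjoint_singleton_right] at this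
      have ht' : t ∉ ms α y := by
        have := hcon.2 (Finset.mem_univ _)
        rwa [Finset.disjoint_singleton_right] at this
      obtain ⟨k, hk1, hk2, hk3⟩ := hmove (ms α y) t ht ht' (hjY y) ha'
      have e1 : k • y = y := ms_supports y k hk3
      have e2 : k • x = g • x := by
        apply agree_smul (ms_supports x)
        intro b hb
        by_cases hba : b = a
        · rw [hba, hk1, hga]
        · rw [hk2 b hb hba, hgb b hb hba]
      apply hy.2
      rw [← e2]
      conv_rhs => rw [← e1]
      exact (hH k x y).symm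
    have c1 := card_bad (X := Y) {a} j hjY hbY (by omega)
    have c2 := card_bad (X := Y) {t} j hjY hbY (by omega)
    rw [Finset.card_singleton, one_mul] at c1 c2
    calc Fintype.card α * _ ≤ Fintype.card α * (_ + _) :=
          Nat.mul_le_mul_left _ ((Finset.card_le_card hsub).trans (Finset.card_union_le _ _))
      _ ≤ 2 * (j * Fintype.card Y) := by
        rw [mul_add, two_mul]
        exact Nat.add_le_add c1 c2
  obtain ⟨k1, k2, k3⟩ := key t₁ g₁ ht₁ hg₁ hg₁'
  obtain ⟨l1, l2, l3⟩ := key t₂ g₂ ht₂ hg₂ hg₂'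
  by_cases h0 : g₁ • x = x₀
  · refine ⟨g₂ • x, l2, ?_, l3⟩
    intro h
    have h3 : g₂ • x = g₁ • x := h.trans h0.symm
    have h4 : t₁ ∈ ms α (g₂ • x) := by rw [h3]; exact k1
    rw [ms_smul g₂ x hbX, Finset.mem_image] at h4
    obtain ⟨b, hb, hb2⟩ := h4
    by_cases hba : b = a
    · rw [hba, hg₂] at hb2
      exact ht hb2.symm
    · rw [hg₂' b hb hba] at hb2
      exact ht₁ (hb2 ▸ hb)
  · exact ⟨g₁ • x, k2, h0, k3⟩

end Pool.Agent.H287R3.RA
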