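import Pool.Agent.H287R3.RA.Supp

/-!
# Homogeneous sets of colourings with an action of an alternating group
-/

set_option autoImplicit false
set_option linter.unusedSectionVars false

namespace Pool.Agent.H287R3.RA

open Finset Equiv Equiv.Perm

variable {α : Type} [Fintype α] [DecidableEq α]

/-- injections of small sets extend to even permutations -/
theorem exists_even (A : Finset α) (w : α → α) (hw : Set.InjOn w A)
    (hcard : A.card + 2 ≤ Fintype.card α) :
    ∃ τ : alternatingGroup α, ∀ a ∈ A, (τ : Perm α) a = w a := by
  classical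
  obtain ⟨g, hg⟩ := Finset.exists_equiv_extend_of_card_eq (t := (Finset.univ : Finset α))
    (by rw [Finset.card_univ]) (Finset.subset_univ _) hw
  set τ₀ : Perm α := g.trans (Equiv.subtypeUnivEquiv (fun x => Finset.mem_univ x)) with hτ₀
  have hτa : ∀ a ∈ A, τ₀ a = w a := fun a ha => hg a ha
  by_cases hs : sign τ₀ = 1
  · exact ⟨⟨τ₀, mem_alternatingGroup.2 hs⟩, hτa⟩
  · have hs' : sign τ₀ = -1 := (Int.units_eq_one_or _).resolve_left hs
    have hc : 1 < Aᶜ.card := by
      rw [Finset.card_compl]
      omega
    rw [Finset.one_lt_card] at hc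
    obtain ⟨x, hx, y, hy, hxy⟩ := hc
    rw [Finset.mem_compl] at hx hy
    refine ⟨⟨τ₀ * Equiv.swap x y, ?_⟩, ?_⟩
    · rw [mem_alternatingGroup, map_mul, hs', sign_swap hxy]
      decide
    · intro a ha
      show τ₀ (Equiv.swap x y a) = w a
      rw [Equiv.swap_apply_of_ne_of_ne, hτa a ha]
      · rintro rfl; exact hx ha
      · rintro rfl; exact hy ha

variable {V : Type} [Fintype V] [DecidableEq V] [MulAction (alternatingGroup α) V]

/-- `B` supports `u` -/
def Supports (B : Finset α) (u : V) : Prop :=
  ∀ g : alternatingGroup α, (∀ x ∈ B, (g : Perm α) x = x) → g • u = u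

/-- **Homogeneous sets.** -/
theorem exists_homog {κ : Type} (c : Finset V → κ) (r : ℕ) (hr : 2 ≤ r)
    (hc : ∀ (g : alternatingGroup α) (S : Finset V), S.card = r →
      c (S.image (fun v => g • v)) = c S)
    (hne : ∃ (u : V) (g : alternatingGroup α), g • u ≠ u)
    (hsmall : r + 6 * Nat.log 2 (Fintype.card V) + 3 ≤ Fintype.card α) :
    ∃ M : Finset V, Fintype.card α ≤ M.card + (6 * Nat.log 2 (Fintype.card V) + 1) ∧
      ∀ S ⊆ M, ∀ S' ⊆ M, S.card = r → S'.card = r → c S = c S' := by
  classical
  obtain ⟨u, g₀, hg₀⟩ := hne
  obtain ⟨B₀, hB₀, hs₀⟩ := exists_support (α := α) u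
  -- minimal support
  have hnonempty : (univ.filter (fun B : Finset α => Supports B u)).Nonempty :=
    ⟨B₀, by rw [Finset.mem_filter]; exact ⟨Finset.mem_univ _, hs₀⟩⟩
  obtain ⟨B, hB, hmin⟩ := Finset.exists_min_image _ (fun B : Finset α => B.card) hnonempty
  rw [Finset.mem_filter] at hB
  have hBs : Supports B u := hB.2
  have hBc : B.card ≤ 6 * Nat.log 2 (Fintype.card V) + 2 :=
    (hmin B₀ (by rw [Finset.mem_filter]; exact ⟨Finset.mem_univ _, hs₀⟩)).trans hB₀
  have hBne : B.Nonempty := by
    rw [Finset.nonempty_iff_ne_empty]
    rintro rfl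
    exact hg₀ (hBs g₀ (by simp))
  obtain ⟨a, ha⟩ := hBne
  have herase : (B.erase a).card + 1 = B.card := Finset.card_erase_add_one ha
  have hnot : ¬ Supports (B.erase a) u := by
    intro h
    have := hmin (B.erase a) (by rw [Finset.mem_filter]; exact ⟨Finset.mem_univ _, h⟩)
    omega
  set T : Finset α := (B.erase a)ᶜ with hT
  have hTc : T.card = Fintype.card α - (B.erase a).card := Finset.card_compl _
  have hBle : (B.erase a).card ≤ Fintype.card α := Finset.card_le_univ _
  -- the points `x t`
  have hex : ∀ t : α, ∃ g : alternatingGroup α, t ∈ T →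
      (∀ y ∈ B.erase a, (g : Perm α) y = y) ∧ (g : Perm α) a = t := by
    intro t
    by_cases ht : t ∈ T
    · obtain ⟨g, hg⟩ := exists_even B (fun y => if y = a then t else y) (by
        intro x hx y hy hxy
        simp only at hxy
        have haux : ∀ z ∈ B, z ≠ a → z ≠ t := by
          intro z hz hza hzt
          rw [hT, Finset.mem_compl] at ht
          exact ht (by rw [← hzt]; exact Finset.mem_erase.2 ⟨hza, hz⟩)
        by_cases hxa : x = a <;> by_cases hya : y = a
        · rw [hxa, hya]
        · rw [if_pos hxa, if_neg hya] at hxy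
          exact absurd hxy.symm (haux y hy hya)
        · rw [if_neg hxa, if_pos hya] at hxy
          exact absurd hxy (haux x hx hxa)
        · rwa [if_neg hxa, if_neg hya] at hxy) (by omega)
      refine ⟨g, fun _ => ⟨fun y hy => ?_, ?_⟩⟩
      · rw [hg y (Finset.mem_of_mem_erase hy), if_neg (Finset.ne_of_mem_erase hy)]
      · rw [hg a ha, if_pos rfl]
    · exact ⟨1, fun h => absurd h ht⟩
  choose gt hgt using hex
  set x : α → V := fun t => gt t • u with hx
  have hK : ∀ g : alternatingGroup α, (∀ y ∈ B.erase a, (g : Perm α) y = y) →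
      (g : Perm α) a ∈ T → g • u = x ((g : Perm α) a) := by
    intro g hg hga
    set t := (g : Perm α) a with ht
    obtain ⟨h1, h2⟩ := hgt t hga
    have h3 : ((gt t)⁻¹ * g) • u = u := by
      apply hBs
      intro y hy
      show ((gt t : Perm α))⁻¹ ((g : Perm α) y) = y
      rw [Equiv.Perm.inv_eq_iff_eq]
      by_cases hya : y = a
      · rw [hya, h2]
      · have hy' : y ∈ B.erase a := Finset.mem_erase.2 ⟨hya, hy⟩
        rw [hg y hy', h1 y hy']
    rw [mul_smul, inv_smul_eq_iff] at h3
    exact h3
  have hstab : ∀ g : alternatingGroup α, (∀ y ∈ B.erase a, (g : Perm α) y = y) →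
      ∀ t ∈ T, (g : Perm α) t ∈ T := by
    intro g hg t ht
    rw [hT, Finset.mem_compl] at ht ⊢
    intro h
    apply ht
    have h1 := hg _ h
    have h2 := (g : Perm α).injective h1
    rwa [h2] at h
  have haT : a ∈ T := by
    rw [hT, Finset.mem_compl]
    exact Finset.notMem_erase a B
  have hact : ∀ g : alternatingGroup α, (∀ y ∈ B.erase a, (g : Perm α) y = y) →
      ∀ t ∈ T, g • x t = x ((g : Perm α) t) := by
    intro g hg t ht
    obtain ⟨h1, h2⟩ := hgt t ht
    have h3 := hK (g * gt t) (by
      intro y hy
      show (g : Perm α) ((gt t : Perm α) y) = y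
      rw [h1 y hy, hg y hy]) (by
      show (g : Perm α) ((gt t : Perm α) a) ∈ T
      rw [h2]
      exact hstab g hg t ht)
    rw [mul_smul] at h3
    rw [hx]
    show g • gt t • u = _
    rw [h3]
    show x ((g : Perm α) ((gt t : Perm α) a)) = x ((g : Perm α) t)
    rw [h2]
  have htrans : ∀ S ⊆ T, ∀ S' ⊆ T, S.card ≤ r → S.card = S'.card →
      ∀ e : S ≃ S', ∃ g : alternatingGroup α,
        (∀ y ∈ B.erase a, (g : Perm α) y = y) ∧ ∀ s : S, (g : Perm α) s = e s := by
    intro S hS S' hS' hSr hSS' e
    have hdis : ∀ y ∈ B.erase a, y ∉ S ∧ y ∉ S' := by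
      intro y hy
      constructor
      · intro h
        have := hS h
        rw [hT, Finset.mem_compl] at this
        exact this hy
      · intro h
        have := hS' h
        rw [hT, Finset.mem_compl] at this
        exact this hy
    obtain ⟨g, hg⟩ := exists_even (B.erase a ∪ S)
      (fun y => if h : y ∈ S then (e ⟨y, h⟩ : α) else y) (by
        intro y hy z hz hyz
        simp only at hyz
        rw [Finset.coe_union] at hy hz
        by_cases h1 : y ∈ S <;> by_cases h2 : z ∈ S
        · rw [dif_pos h1, dif_pos h2] at hyz
          have h3 := e.injective (Subtype.ext hyz)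
          exact congrArg Subtype.val h3
        · rw [dif_pos h1, dif_neg h2] at hyz
          have h3 : z ∈ B.erase a := by
            rcases hz with h | h
            · exact h
            · exact absurd h h2
          exact absurd (hyz ▸ (e ⟨y, h1⟩).2) (hdis z h3).2
        · rw [dif_neg h1, dif_pos h2] at hyz
          have h3 : y ∈ B.erase a := by
            rcases hy with h | h
            · exact h
            · exact absurd h h1
          exact absurd (hyz ▸ (e ⟨z, h2⟩).2) (hdis y h3).2
        · rwa [dif_neg h1, dif_neg h2] at hyz) (by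
        have := Finset.card_union_le (B.erase a) S
        omega)
    refine ⟨g, fun y hy => ?_, fun s => ?_⟩
    · rw [hg y (Finset.mem_union_left _ hy), dif_neg (hdis y hy).1]
    · rw [hg s (Finset.mem_union_right _ s.2), dif_pos s.2]
  -- injectivity
  have hinj : Set.InjOn x T := by
    intro s hs t ht hst
    by_contra hne
    apply hnot
    have hconst : ∀ s' ∈ T, ∀ t' ∈ T, x s' = x t' := by
      intro s' hs' t' ht'
      by_cases hne' : s' = t'
      · rw [hne']
      have hs2 : (s : α) ∈ T := hs
      have ht2 : (t : α) ∈ T := ht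
      have hc1 : ({s, t} : Finset α).card = 2 := Finset.card_pair hne
      have hc2 : ({s', t'} : Finset α).card = 2 := Finset.card_pair hne'
      have hsub : ({s, t} : Finset α) ⊆ T := by
        intro y hy
        rw [Finset.mem_insert, Finset.mem_singleton] at hy
        rcases hy with rfl | rfl <;> assumption
      obtain ⟨g, hg⟩ := exists_even (B.erase a ∪ {s, t})
        (fun y => if y = s then s' else if y = t then t' else y) (by
          have hdis : ∀ y ∈ B.erase a, ∀ z ∈ T, y ≠ z := by
            rintro y hy z hz rfl
            rw [hT, Finset.mem_compl] at hz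
            exact hz hy
          intro y hy z hz hyz
          simp only at hyz
          rw [Finset.coe_union] at hy hz
          have hcl : ∀ y : α, (y ∈ (↑(B.erase a) : Set α) ∨ y ∈ (↑({s, t} : Finset α) : Set α)) →
              y ≠ s → y ≠ t → y ∈ B.erase a := by
            intro y hy h1 h2
            rcases hy with h | h
            · exact h
            · rw [Finset.mem_coe, Finset.mem_insert, Finset.mem_singleton] at h
              rcases h with h | h
              · exact absurd h h1
              · exact absurd h h2
          by_cases h1 : y = s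
          · rw [if_pos h1] at hyz
            by_cases h2 : z = s
            · rw [h1, h2]
            · rw [if_neg h2] at hyz
              by_cases h3 : z = t
              · rw [if_pos h3] at hyz
                exact absurd hyz hne'
              · rw [if_neg h3] at hyz
                exact absurd hyz.symm (hdis z (hcl z hz h2 h3) s' hs')
          · rw [if_neg h1] at hyz
            by_cases h2 : y = t
            · rw [if_pos h2] at hyz
              by_cases h3 : z = s
              · rw [if_pos h3] at hyz
                exact absurd hyz.symm hne'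
              · rw [if_neg h3] at hyz
                by_cases h4 : z = t
                · rw [h2, h4]
                · rw [if_neg h4] at hyz
                  exact absurd hyz.symm (hdis z (hcl z hz h3 h4) t' ht')
            · rw [if_neg h2] at hyz
              by_cases h3 : z = s
              · rw [if_pos h3] at hyz
                exact absurd hyz (hdis y (hcl y hy h1 h2) s' hs')
              · rw [if_neg h3] at hyz
                by_cases h4 : z = t
                · rw [if_pos h4] at hyz
                  exact absurd hyz (hdis y (hcl y hy h1 h2) t' ht')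
                · rwa [if_neg h4] at hyz) (by
          have := Finset.card_union_le (B.erase a) {s, t}
          omega)
      have hgfix : ∀ y ∈ B.erase a, (g : Perm α) y = y := by
        intro y hy
        have hys : y ≠ s := by
          rintro rfl
          rw [hT, Finset.mem_compl] at hs2
          exact hs2 hy
        have hyt : y ≠ t := by
          rintro rfl
          rw [hT, Finset.mem_compl] at ht2
          exact ht2 hy
        rw [hg y (Finset.mem_union_left _ hy), if_neg hys, if_neg hyt]
      have e1 := hact g hgfix s hs2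
      have e2 := hact g hgfix t ht2
      rw [hg s (Finset.mem_union_right _ (by simp)), if_pos rfl] at e1
      rw [hg t (Finset.mem_union_right _ (by simp)), if_neg (Ne.symm hne), if_pos rfl] at e2
      rw [← e1, ← e2, hst]
    intro g hg
    have h1 := hK g hg (hstab g hg a haT)
    have h2 := hK 1 (fun y _ => rfl) haT
    rw [one_smul] at h2
    rw [h1]
    conv_rhs => rw [h2]
    exact hconst _ (hstab g hg a haT) _ haT
  refine ⟨T.image x, ?_, ?_⟩
  · rw [Finset.card_image_of_injOn hinj, hTc]
    omega
  · intro S hS S' hS' hSr hSr'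
    obtain ⟨S₁, hS₁, rfl⟩ := Finset.subset_image_iff.1 hS
    obtain ⟨S₂, hS₂, rfl⟩ := Finset.subset_image_iff.1 hS'
    have hc1 : S₁.card = r := by
      rw [← hSr, Finset.card_image_of_injOn (hinj.mono hS₁)]
    have hc2 : S₂.card = r := by
      rw [← hSr', Finset.card_image_of_injOn (hinj.mono hS₂)]
    have e : S₁ ≃ S₂ := Finset.equivOfCardEq (hc1.trans hc2.symm)
    obtain ⟨g, hg1, hg2⟩ := htrans S₁ (by exact_mod_cast hS₁) S₂ (by exact_mod_cast hS₂)
      hc1.le (hc1.trans hc2.symm) e
    have himg : (S₁.image x).image (fun v => g • v) = S₂.image x := by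
      ext v
      rw [Finset.mem_image, Finset.mem_image]
      constructor
      · rintro ⟨w, hw, rfl⟩
        rw [Finset.mem_image] at hw
        obtain ⟨s, hs, rfl⟩ := hw
        refine ⟨(g : Perm α) s, ?_, ?_⟩
        · have := hg2 ⟨s, hs⟩
          simp only at this
          rw [this]
          exact (e ⟨s, hs⟩).2
        · rw [hact g hg1 s (hS₁ hs)]
      · rintro ⟨s, hs, rfl⟩
        refine ⟨x (e.symm ⟨s, hs⟩), Finset.mem_image_of_mem _ (e.symm ⟨s, hs⟩).2, ?_⟩
        rw [hact g hg1 _ (hS₁ (e.symm ⟨s, hs⟩).2), hg2 (e.symm ⟨s, hs⟩)]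
        simp
    rw [← himg]
    exact (hc g _ hSr).symm

end Pool.Agent.H287R3.RA
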