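import Pool.Agent.H287R3.RA.Uniq

/-!
# Matrices invariant under an alternating group are not rigid
-/

set_option autoImplicit false
set_option linter.unusedSectionVars false

namespace Pool.Agent.H287R3.RA

open Finset Equiv Equiv.Perm

variable {α : Type} [Fintype α] [DecidableEq α]
variable {X Y : Type} [Fintype X] [Fintype Y] [DecidableEq X] [DecidableEq Y]
  [MulAction (alternatingGroup α) X] [MulAction (alternatingGroup α) Y]
variable {F : Type} [Field F]

theorem row_identity (A : Matrix X Y F)
    (hA : ∀ (g : alternatingGroup α) (x : X) (y : Y), A (g • x) (g • y) = A x y)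
    {x : X} {y : Y} {R : Finset α} {ρ : α → α} {g : Finset α → alternatingGroup α}
    (hρ : Set.InjOn ρ (ms α x)) (hρR : ∀ a ∈ ms α x, ρ a ∈ R)
    (hg : ∀ T ⊆ ms α x, ∀ a ∈ ms α x, (g T : Perm α) a = if a ∈ T then ρ a else a)
    (hx : Disjoint (ms α x) R) (hy : Disjoint (ms α y) R)
    (hc : (ms α x).card + (ms α y).card + R.card + 2 ≤ Fintype.card α)
    (hsub : ¬ ms α x ⊆ ms α y) :
    ∑ T ∈ (ms α x).powerset, (-1 : F) ^ T.card * A (g T • x) y = 0 := by
  classical
  rw [Finset.not_subset] at hsub
  obtain ⟨a, hax, hay⟩ := hsub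
  have hins : insert a ((ms α x).erase a) = ms α x := Finset.insert_erase hax
  have haR : a ∉ R := Finset.disjoint_left.1 hx hax
  rw [← hins, Finset.sum_powerset_insert (Finset.notMem_erase a _), ← Finset.sum_add_distrib]
  apply Finset.sum_eq_zero
  intro T hT
  rw [Finset.mem_powerset] at hT
  have haT : a ∉ T := fun h => Finset.notMem_erase a _ (hT h)
  have hTx : T ⊆ ms α x := hT.trans (Finset.erase_subset _ _)
  have hTx' : insert a T ⊆ ms α x := Finset.insert_subset hax hTx
  obtain ⟨k, hk⟩ := exists_even (ms α x ∪ ms α y ∪ R.erase (ρ a))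
    (fun z => if z = a then ρ a else z) (by
      have haux : ∀ z, z ∈ ms α x ∪ ms α y ∪ R.erase (ρ a) → z ≠ a → z ≠ ρ a := by
        intro z hz _ hza
        rw [Finset.mem_union, Finset.mem_union] at hz
        rcases hz with (hz | hz) | hz
        · exact Finset.disjoint_left.1 hx hz (hza ▸ hρR a hax)
        · exact Finset.disjoint_left.1 hy hz (hza ▸ hρR a hax)
        · rw [hza] at hz
          exact Finset.notMem_erase _ _ hz
      intro u hu v hv huv
      simp only at huv
      by_cases hua : u = a <;> by_cases hva : v = a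
      · rw [hua, hva]
      · rw [if_pos hua, if_neg hva] at huv
        exact absurd huv.symm (haux v hv hva)
      · rw [if_neg hua, if_pos hva] at huv
        exact absurd huv (haux u hu hua)
      · rwa [if_neg hua, if_neg hva] at huv) (by
      have h1 := Finset.card_union_le (ms α x ∪ ms α y) (R.erase (ρ a))
      have h2 := Finset.card_union_le (ms α x) (ms α y)
      have h3 := Finset.card_erase_le (s := R) (a := ρ a)
      omega)
  have hky : k • y = y := by
    apply ms_supports y
    intro z hz
    rw [hk z (Finset.mem_union_left _ (Finset.mem_union_right _ hz)), if_neg]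
    rintro rfl
    exact hay hz
  have hkx : k • (g T • x) = g (insert a T) • x := by
    rw [smul_smul]
    apply agree_smul (ms_supports x)
    intro b hb
    show (k : Perm α) ((g T : Perm α) b) = (g (insert a T) : Perm α) b
    rw [hg T hTx b hb, hg (insert a T) hTx' b hb]
    by_cases hbT : b ∈ T
    · have hba : b ≠ a := by
        rintro rfl
        exact haT hbT
      rw [if_pos hbT, if_pos (Finset.mem_insert_of_mem hbT)]
      have h1 : ρ b ∈ R := hρR b hb
      have h2 : ρ b ≠ ρ a := fun h => hba (hρ hb hax h)
      rw [hk (ρ b) (Finset.mem_union_right _ (Finset.mem_erase.2 ⟨h2, h1⟩)), if_neg]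
      intro h
      rw [h] at h1
      exact haR h1
    · rw [if_neg hbT]
      by_cases hba : b = a
      · rw [hba, hk a (Finset.mem_union_left _ (Finset.mem_union_left _ hax)), if_pos rfl,
          if_pos (Finset.mem_insert_self _ _)]
      · rw [hk b (Finset.mem_union_left _ (Finset.mem_union_left _ hb)), if_neg hba, if_neg]
        rw [Finset.mem_insert, not_or]
        exact ⟨hba, hbT⟩
  have e : A (g (insert a T) • x) y = A (g T • x) y := by
    rw [← hkx]
    conv_lhs => rw [← hky]
    exact hA k _ _
  rw [Finset.card_insert_of_notMem haT, e, pow_succ]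
  ring

theorem rank_add_le'' (A B : Matrix X Y F) : (A + B).rank ≤ A.rank + B.rank := by
  have h : LinearMap.range (A + B).mulVecLin ≤
      LinearMap.range A.mulVecLin ⊔ LinearMap.range B.mulVecLin := by
    rintro _ ⟨v, rfl⟩
    rw [Matrix.mulVecLin_add, LinearMap.add_apply]
    exact Submodule.add_mem_sup ⟨v, rfl⟩ ⟨v, rfl⟩
  unfold Matrix.rank
  exact (Submodule.finrank_mono h).trans (Submodule.finrank_add_le_finrank_add_finrank _ _)

/-- The decomposition. -/
theorem decomp (A : Matrix X Y F)
    (hA : ∀ (g : alternatingGroup α) (x : X) (y : Y), A (g • x) (g • y) = A x y)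
    (R : Finset α) (hRX : ∀ x : X, (ms α x).card ≤ R.card)
    (hRY : ∀ y : Y, (ms α y).card ≤ R.card) (hc : 3 * R.card + 2 ≤ Fintype.card α)
    (hbigX : ∀ x : X, 2 * (ms α x).card + 3 ≤ Fintype.card α) :
    ∃ L : Matrix X Y F,
      L.rank ≤ (univ.filter (fun x : X => ¬ Disjoint (ms α x) R)).card +
        (univ.filter (fun y : Y => ¬ Disjoint (ms α y) R)).card ∧
      ∀ x y, A x y ≠ L x y → ms α x ⊆ ms α y := by
  classical
  have hexρ : ∀ x : X, ∃ ρ : α → α, Set.InjOn ρ (ms α x) ∧ ∀ a ∈ ms α x, ρ a ∈ R := by
    intro x
    obtain ⟨D, hDR, hD⟩ := Finset.exists_subset_card_eq (hRX x)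
    have e : ms α x ≃ D := Finset.equivOfCardEq hD.symm
    refine ⟨fun a => if h : a ∈ ms α x then (e ⟨a, h⟩ : α) else a, ?_, ?_⟩
    · intro u hu v hv huv
      simp only at huv
      rw [dif_pos (Finset.mem_coe.1 hu), dif_pos (Finset.mem_coe.1 hv)] at huv
      exact congrArg Subtype.val (e.injective (Subtype.ext huv))
    · intro a ha
      simp only
      rw [dif_pos ha]
      exact hDR (e ⟨a, ha⟩).2
  choose ρ hρ hρR using hexρ
  have hexg : ∀ (x : X) (T : Finset α), ∃ g : alternatingGroup α,
      Disjoint (ms α x) R → ∀ a ∈ ms α x, (g : Perm α) a = if a ∈ T then ρ x a else a := by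
    intro x T
    by_cases hd : Disjoint (ms α x) R
    · obtain ⟨g, hg⟩ := exists_even (ms α x) (fun a => if a ∈ T then ρ x a else a) (by
        intro u hu v hv huv
        simp only at huv
        by_cases huT : u ∈ T <;> by_cases hvT : v ∈ T
        · rw [if_pos huT, if_pos hvT] at huv
          exact hρ x hu hv huv
        · rw [if_pos huT, if_neg hvT] at huv
          exact absurd (huv ▸ hρR x u hu) (Finset.disjoint_left.1 hd hv)
        · rw [if_neg huT, if_pos hvT] at huv
          exact absurd (huv ▸ hρR x v hv) (Finset.disjoint_left.1 hd hu)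
        · rwa [if_neg huT, if_neg hvT] at huv) (by
        have := hRX x
        omega)
      exact ⟨g, fun _ => hg⟩
    · exact ⟨1, fun h => absurd h hd⟩
  choose g hg using hexg
  set Xb : Finset X := univ.filter (fun x : X => ¬ Disjoint (ms α x) R) with hXb
  set Yb : Finset Y := univ.filter (fun y : Y => ¬ Disjoint (ms α y) R) with hYb
  have hgX : ∀ x : X, x ∉ Xb → ∀ T ∈ (ms α x).powerset.erase ∅, g x T • x ∈ Xb := by
    intro x hx T hT
    rw [Finset.mem_erase, Finset.mem_powerset] at hT
    obtain ⟨a, ha⟩ := Finset.nonempty_iff_ne_empty.2 hT.1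
    have hd : Disjoint (ms α x) R := by
      by_contra hcon
      exact hx (by rw [hXb, Finset.mem_filter]; exact ⟨Finset.mem_univ _, hcon⟩)
    rw [hXb, Finset.mem_filter]
    refine ⟨Finset.mem_univ _, ?_⟩
    rw [ms_smul (g x T) x hbigX]
    intro hdis
    have h1 : ρ x a ∈ (ms α x).image (g x T : Perm α) := by
      rw [Finset.mem_image]
      exact ⟨a, hT.2 ha, by rw [hg x T hd a (hT.2 ha), if_pos ha]⟩
    exact Finset.disjoint_left.1 hdis h1 (hρR x a (hT.2 ha))
  set L2 : Matrix X Y F := fun x y => if x ∈ Xb then A x y else
    - ∑ T ∈ (ms α x).powerset.erase ∅, (-1 : F) ^ T.card * A (g x T • x) y with hL2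
  set L : Matrix X Y F := fun x y => if y ∈ Yb then A x y else L2 x y with hL
  refine ⟨L, ?_, ?_⟩
  · set C : Matrix X Xb F := fun x x' => if x ∈ Xb then (if x = x' then 1 else 0) else
      - ∑ T ∈ (ms α x).powerset.erase ∅, (-1 : F) ^ T.card * (if g x T • x = x' then 1 else 0)
      with hC
    set Ab : Matrix Xb Y F := fun x' y => A x' y with hAb
    set M : Matrix X Yb F := fun x y' => A x y' - L2 x y' with hM
    set P : Matrix Yb Y F := fun y' y => if (y' : Y) = y then 1 else 0 with hP
    have e2 : L2 = C * Ab := by
      ext x y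
      rw [Matrix.mul_apply]
      simp only [hL2, hC, hAb]
      by_cases hx : x ∈ Xb
      · rw [if_pos hx]
        rw [Finset.sum_eq_single (⟨x, hx⟩ : Xb)]
        · simp [hx]
        · intro b _ hb
          have : x ≠ (b : X) := fun h => hb (Subtype.ext h.symm)
          simp [hx, this]
        · intro h
          exact absurd (Finset.mem_univ _) h
      · simp only [if_neg hx]
        simp only [neg_mul, Finset.sum_neg_distrib]
        congr 1
        simp only [Finset.sum_mul]
        rw [Finset.sum_comm]
        apply Finset.sum_congr rfl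
        intro T hT
        rw [Finset.sum_eq_single (⟨g x T • x, hgX x hx T hT⟩ : Xb)]
        · simp
        · intro b _ hb
          have : g x T • x ≠ (b : X) := fun h => hb (Subtype.ext h.symm)
          simp [this]
        · intro h
          exact absurd (Finset.mem_univ _) h
    have e1 : L = L2 + M * P := by
      ext x y
      rw [Matrix.add_apply, Matrix.mul_apply]
      simp only [hL, hM, hP]
      by_cases hy : y ∈ Yb
      · rw [if_pos hy, Finset.sum_eq_single (⟨y, hy⟩ : Yb)]
        · simp
        · intro b _ hb
          have : (b : Y) ≠ y := fun h => hb (Subtype.ext h)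
          simp [this]
        · intro h
          exact absurd (Finset.mem_univ _) h
      · rw [if_neg hy, Finset.sum_eq_zero, add_zero]
        intro b _
        have : (b : Y) ≠ y := fun h => hy (h ▸ b.2)
        simp [this]
    have r2 : L2.rank ≤ Xb.card := by
      rw [e2]
      refine (Matrix.rank_mul_le_left C Ab).trans ?_
      have := Matrix.rank_le_card_width C
      rwa [Fintype.card_coe] at this
    have r1 : (M * P).rank ≤ Yb.card := by
      refine (Matrix.rank_mul_le_left M P).trans ?_
      have := Matrix.rank_le_card_width M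
      rwa [Fintype.card_coe] at this
    rw [e1]
    exact (rank_add_le'' _ _).trans (Nat.add_le_add r2 r1)
  · intro x y hne
    by_contra hsub
    apply hne
    simp only [hL, hL2]
    by_cases hy : y ∈ Yb
    · rw [if_pos hy]
    · rw [if_neg hy]
      by_cases hx : x ∈ Xb
      · rw [if_pos hx]
      · rw [if_neg hx]
        have hdx : Disjoint (ms α x) R := by
          by_contra hcon
          exact hx (by rw [hXb, Finset.mem_filter]; exact ⟨Finset.mem_univ _, hcon⟩)
        have hdy : Disjoint (ms α y) R := by
          by_contra hcon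
          exact hy (by rw [hYb, Finset.mem_filter]; exact ⟨Finset.mem_univ _, hcon⟩)
        have key := row_identity A hA (hρ x) (hρR x) (g := g x)
          (fun T _ a ha => hg x T hdx a ha) hdx hdy (by
            have h1 := hRX x
            have h2 := hRY y
            omega) hsub
        rw [← Finset.add_sum_erase _ _ (Finset.empty_mem_powerset _)] at key
        rw [Finset.card_empty, pow_zero, one_mul] at key
        have h0 : g x ∅ • x = x := by
          have := agree_smul (ms_supports x) (g := g x ∅) (g' := 1) (by
            intro a ha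
            rw [hg x ∅ hdx a ha]
            simp)
          rwa [one_smul] at this
        rw [h0] at key
        exact eq_neg_of_add_eq_zero_left key

end Pool.Agent.H287R3.RA
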