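import Pool.Agent.H287R3.LR.ProdA

/-!
# Small sets on which a large alternating group acts: supports of points
-/

set_option autoImplicit false
set_option linter.unusedSectionVars false

namespace Pool.Agent.H287R3.RA

open Finset Equiv Equiv.Perm Module Pool.Agent.H287R3.LR
open scoped commutatorElement

section quad

variable {U : Type} [AddCommGroup U] [Module ℂ U]

/-- Sums of commuting orthogonal projections. -/
theorem sum_proj_le (Q : U → ℝ) (hQ : ∀ x, 0 ≤ Q x) : ∀ (L : List (Module.End ℂ U)),
    L.Pairwise Commute → (∀ F ∈ L, ∀ x, Q x = Q (F x) + Q (x - F x)) → ∀ (k : ℕ) (x : U),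
    (∀ S : List (Module.End ℂ U), S.Sublist L → k < S.length → S.prod x = 0) → Q 0 = 0 →
    (L.map (fun F => Q (F x))).sum ≤ k * Q x := by
  intro L
  induction L with
  | nil =>
    intro _ _ k x _ _
    simp only [List.map_nil, List.sum_nil]
    exact mul_nonneg (Nat.cast_nonneg k) (hQ x)
  | cons F L ih =>
    intro hpw hF k x hS h0
    rw [List.pairwise_cons] at hpw
    have ihL := ih hpw.2 (fun G hG => hF G (by simp [hG]))
    have hcommL : ∀ G ∈ L, ∀ y, F (G y) = G (F y) := fun G hG y =>
      LinearMap.congr_fun (hpw.1 G hG) y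
    have hcommS : ∀ S : List (Module.End ℂ U), S.Sublist L → ∀ y, F (S.prod y) = S.prod (F y) := by
      intro S hSL y
      have h1 : Commute F S.prod := by
        apply Commute.list_prod_right
        intro G hG
        exact hpw.1 G (hSL.subset hG)
      exact LinearMap.congr_fun h1 y
    have hsplit : ∀ G ∈ L, Q (G x) = Q (G (F x)) + Q (G (x - F x)) := by
      intro G hG
      rw [hF F (by simp) (G x), hcommL G hG, map_sub]
    have hsum : (L.map (fun G => Q (G x))).sum =
        (L.map (fun G => Q (G (F x)))).sum + (L.map (fun G => Q (G (x - F x)))).sum := by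
      rw [← List.sum_map_add]
      congr 1
      apply List.map_congr_left
      exact hsplit
    rw [List.map_cons, List.sum_cons, hsum]
    have hb : (L.map (fun G => Q (G (x - F x)))).sum ≤ k * Q (x - F x) := by
      apply ihL k _ _ h0
      intro S hSL hk
      have e : S.prod (x - F x) = S.prod x - F (S.prod x) := by
        rw [map_sub, hcommS S hSL]
      rw [e, hS S (hSL.cons F) hk, map_zero, sub_zero]
    rcases Nat.eq_zero_or_pos k with hk0 | hk0
    · subst hk0
      have hFx : F x = 0 := by
        have := hS [F] (by simp) (by simp)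
        simpa using this
      have e1 : (L.map (fun G => Q (G (F x)))).sum = 0 := by
        rw [hFx]
        apply List.sum_eq_zero
        intro y hy
        rw [List.mem_map] at hy
        obtain ⟨G, _, rfl⟩ := hy
        rw [map_zero, h0]
      rw [e1, hFx, h0]
      rw [hFx] at hb
      simp only [CharP.cast_eq_zero, zero_mul] at hb ⊢
      linarith
    · have ha : (L.map (fun G => Q (G (F x)))).sum ≤ ((k - 1 : ℕ) : ℝ) * Q (F x) := by
        apply ihL (k - 1) _ _ h0
        intro S hSL hk
        have h1 := hS (F :: S) (hSL.cons_cons F) (by rw [List.length_cons]; omega)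
        rw [List.prod_cons, Module.End.mul_apply, hcommS S hSL] at h1
        exact h1
      rw [Nat.cast_sub hk0, Nat.cast_one] at ha
      have h2 := hF F (by simp) x
      rw [h2]
      nlinarith

end quad

section perm

variable {Γ : Type} [Group Γ] [Fintype Γ] {V : Type} [Fintype V] [MulAction Γ V]

/-- the permutation representation on functions -/
noncomputable def prep (Γ V : Type) [Group Γ] [MulAction Γ V] : Γ →* Module.End ℂ (V → ℂ) where
  toFun g :=
    { toFun := fun φ y => φ (g⁻¹ • y)
      map_add' := fun _ _ => rfl
      map_smul' := fun _ _ => rfl }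
  map_one' := by
    ext φ y
    simp
  map_mul' g h := by
    ext φ y
    simp [mul_smul]

theorem prep_apply (g : Γ) (φ : V → ℂ) (y : V) : prep Γ V g φ y = φ (g⁻¹ • y) := rfl

/-- the squared norm -/
noncomputable def nrm (φ : V → ℂ) : ℝ := ∑ x, Complex.normSq (φ x)

theorem nrm_nonneg (φ : V → ℂ) : 0 ≤ nrm φ := Finset.sum_nonneg (fun _ _ => Complex.normSq_nonneg _)

theorem nrm_prep (g : Γ) (φ : V → ℂ) : nrm (prep Γ V g φ) = nrm φ := by
  unfold nrm
  exact Fintype.sum_equiv (MulAction.toPerm g⁻¹) _ _ (fun x => rfl)

/-- half of `1 - π` -/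
noncomputable def pj (g : Γ) : Module.End ℂ (V → ℂ) := (1 / 2 : ℂ) • (1 - prep Γ V g)

theorem nrm_pj (g : Γ) (φ : V → ℂ) : nrm φ = nrm (pj g φ) + nrm (φ - pj g φ) := by
  have h1 := nrm_prep g φ
  have h2 : nrm (pj g φ) + nrm (φ - pj g φ) = (nrm φ + nrm (prep Γ V g φ)) / 2 := by
    unfold nrm
    rw [← Finset.sum_add_distrib, ← Finset.sum_add_distrib, Finset.sum_div]
    apply Finset.sum_congr rfl
    intro x _
    have e1 : (pj g φ) x = (1 / 2 : ℂ) * (φ x - prep Γ V g φ x) := rfl
    have e2 : (φ - pj g φ) x = (1 / 2 : ℂ) * (φ x + prep Γ V g φ x) := by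
      rw [Pi.sub_apply, e1]
      ring
    rw [e1, e2, map_mul, map_mul, Complex.normSq_apply, Complex.normSq_apply, Complex.normSq_apply,
      Complex.normSq_apply, Complex.normSq_apply]
    simp
    ring
  rw [h2, h1]
  ring

theorem sum_half (u : V) (L : List Γ) (hmove : ∀ π ∈ L, π • u ≠ u)
    (hpw : L.Pairwise Commute) (k : ℕ) (hk : ∀ S : List Γ, S.Sublist L → k < S.length → ∀ φ, prodOp (prep Γ V) S φ = 0) :
    L.length ≤ 2 * k := by
  classical
  set δ : V → ℂ := fun x => if x = u then 1 else 0 with hδ
  have hδ1 : nrm δ = 1 := by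
    unfold nrm
    rw [Finset.sum_eq_single u]
    · simp [hδ]
    · intro x _ hx
      simp [hδ, hx]
    · intro h
      exact absurd (Finset.mem_univ u) h
  have hhalf : ∀ π ∈ L, nrm (pj π δ) = 1 / 2 := by
    intro π hπ
    have hne := hmove π hπ
    unfold nrm
    have e : ∀ x, Complex.normSq ((pj π δ) x) =
        (if x = u then 1 / 4 else 0) + (if x = π • u then 1 / 4 else 0) := by
      intro x
      have e1 : (pj π δ) x = (1 / 2 : ℂ) * (δ x - δ (π⁻¹ • x)) := rfl
      rw [e1]
      have e2 : (π⁻¹ • x = u) ↔ x = π • u := inv_smul_eq_iff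
      simp only [hδ, e2]
      by_cases h1 : x = u
      · have h2 : x ≠ π • u := fun h => hne (h.symm.trans h1)
        rw [if_pos h1, if_neg h2, if_pos h1, if_neg h2]
        norm_num [Complex.normSq_apply]
      · by_cases h2 : x = π • u
        · rw [if_neg h1, if_pos h2, if_neg h1, if_pos h2]
          norm_num [Complex.normSq_apply]
        · rw [if_neg h1, if_neg h2, if_neg h1, if_neg h2]
          norm_num
    rw [Finset.sum_congr rfl (fun x _ => e x), Finset.sum_add_distrib, Finset.sum_ite_eq',
      Finset.sum_ite_eq', if_pos (Finset.mem_univ _), if_pos (Finset.mem_univ _)]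
    norm_num
  have key := sum_proj_le (U := V → ℂ) nrm nrm_nonneg (L.map (fun π => pj π)) ?_ ?_ k δ ?_ ?_
  · rw [List.map_map] at key
    have e : (L.map ((fun F : Module.End ℂ (V → ℂ) => nrm (F δ)) ∘ fun π => pj π)).sum =
        L.length * (1 / 2 : ℝ) := by
      have e1 : L.map ((fun F : Module.End ℂ (V → ℂ) => nrm (F δ)) ∘ fun π => pj π) =
          L.map (fun _ => (1 / 2 : ℝ)) := by
        apply List.map_congr_left
        intro π hπ
        exact hhalf π hπ
      rw [e1, List.map_const', List.sum_replicate, nsmul_eq_mul]
    rw [e, hδ1] at key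
    have h3 : (L.length : ℝ) ≤ 2 * k := by linarith
    exact_mod_cast h3
  · rw [List.pairwise_map]
    refine hpw.imp ?_
    intro a b hab
    have h1 : Commute (prep Γ V a) (prep Γ V b) := hab.map (prep Γ V)
    have h2 : Commute (1 - prep Γ V a) (1 - prep Γ V b) :=
      ((Commute.one_left _).sub_left ((Commute.one_right _).sub_right h1))
    unfold pj
    exact (h2.smul_left _).smul_right _
  · intro F hF x
    rw [List.mem_map] at hF
    obtain ⟨π, _, rfl⟩ := hF
    exact nrm_pj π x
  · intro S hS hlen
    rw [List.sublist_map_iff] at hS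
    obtain ⟨S', hS', rfl⟩ := hS
    have h1 := hk S' hS' (by rwa [List.length_map] at hlen)
    have key2 : ∀ T : List Γ, ∀ φ : V → ℂ, (T.map (fun π => (pj π : Module.End ℂ (V → ℂ)))).prod φ =
        ((1 / 2 : ℂ) ^ T.length) • prodOp (prep Γ V) T φ := by
      intro T
      induction T with
      | nil => intro φ; simp [prodOp]
      | cons π T ih =>
        intro φ
        rw [List.map_cons, List.prod_cons, Module.End.mul_apply, ih, map_smul]
        have e1 : (pj π : Module.End ℂ (V → ℂ)) (prodOp (prep Γ V) T φ) =
            (1 / 2 : ℂ) • prodOp (prep Γ V) (π :: T) φ := rfl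
        rw [e1, smul_smul, List.length_cons, pow_succ]
    rw [key2, h1, smul_zero]
  · unfold nrm
    simp

end perm

section supp

variable {α : Type} [Fintype α] [DecidableEq α] {V : Type} [Fintype V]
  [MulAction (alternatingGroup α) V]

/-- a family of disjoint three-cycles moving `u` has at most `2 log₂ |V|` members -/
theorem family_le (u : V) (p q : α) (hpq : p ≠ q) {b : ℕ} (π : Fin b → alternatingGroup α)
    (hsp : ∀ i, p ∉ (π i : Perm α).support ∧ q ∉ (π i : Perm α).support)
    (hd : ∀ i j, i ≠ j → Disjoint (π i : Perm α).support (π j : Perm α).support)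
    (hmove : ∀ i, π i • u ≠ u) : b ≤ 2 * Nat.log 2 (Fintype.card V) := by
  classical
  set c : Perm α := Equiv.swap p q with hc
  have hcc : c * c = 1 := by rw [hc]; exact Equiv.swap_mul_self p q
  have hsc : sign c = -1 := sign_swap hpq
  have hcommc : ∀ i, ∀ a ∈ symOn (π i : Perm α).support, Commute a c := by
    intro i a ha
    apply Equiv.Perm.Disjoint.commute
    intro x
    by_cases hx : x ∈ (π i : Perm α).support
    · right
      apply Equiv.swap_apply_of_ne_of_ne
      · rintro rfl; exact (hsp i).1 hx
      · rintro rfl; exact (hsp i).2 hx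
    · left
      exact mem_symOn_fix ha hx
  set G : Fin b → Subgroup (alternatingGroup α) := fun i =>
    (tw (π i : Perm α).support c hcc (hcommc i)).subgroupOf (alternatingGroup α) with hG
  have hmem : ∀ i, π i ∈ ⁅G i, G i⁆ := by
    intro i
    have h1 := even_mem_tw (hc := hcc) (hcomm := hcommc i) hsc
      (Finset.Subset.refl (π i : Perm α).support) (mem_alternatingGroup.1 (π i).2)
    have h2 : (G i).map (alternatingGroup α).subtype =
        tw (π i : Perm α).support c hcc (hcommc i) ⊓ alternatingGroup α := by
      rw [hG]
      exact Subgroup.subgroupOf_map_subtype _ _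
    rw [← h2, ← Subgroup.map_commutator] at h1
    obtain ⟨y, hy, hy2⟩ := h1
    have h3 : y = π i := Subtype.ext hy2
    rwa [h3] at hy
  have hcommG : ∀ i j, i ≠ j → ∀ g ∈ G i, ∀ h ∈ G j, Commute g h := by
    intro i j hij g hg h hh
    have h1 : Commute (g : Perm α) (h : Perm α) := tw_commute (hd i j hij)
      (hc := hcc) (hcomm := hcommc i) (hc' := hcc) (hcomm' := hcommc j) hg hh
    exact Subtype.ext h1
  have hself : ∀ i, π i ∈ G i := by
    intro i
    have h3 : ⁅G i, G i⁆ ≤ G i := by
      rw [Subgroup.commutator_le]
      intro x hx y hy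
      exact (G i).mul_mem ((G i).mul_mem ((G i).mul_mem hx hy) ((G i).inv_mem hx)) ((G i).inv_mem hy)
    exact h3 (hmem i)
  have key := sum_half u ((List.finRange b).map π) ?_ ?_ (Nat.log 2 (Fintype.card V)) ?_
  · simpa using key
  · intro x hx
    rw [List.mem_map] at hx
    obtain ⟨i, _, rfl⟩ := hx
    exact hmove i
  · rw [List.pairwise_map]
    exact (List.nodup_finRange b).imp (fun {i j} hij => hcommG i j hij _ (hself i) _ (hself j))
  · intro S hS hlen φ
    rw [List.sublist_map_iff] at hS
    obtain ⟨T, hT, rfl⟩ := hS
    by_contra hne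
    have hnd : T.Nodup := (List.nodup_finRange b).sublist hT
    have h1 := splitting (prep (alternatingGroup α) V) (T.map (fun i => (G i, π i))) ⊤ ?_ ?_ ?_ ?_
    · rw [List.length_map, finrank_top, Module.finrank_pi] at h1
      have h2 := Nat.le_log_of_pow_le (b := 2) (by norm_num) h1
      rw [List.length_map] at hlen
      omega
    · intro x hx
      rw [List.mem_map] at hx
      obtain ⟨i, _, rfl⟩ := hx
      exact hmem i
    · rw [List.pairwise_map]
      exact hnd.imp (fun {i j} hij => hcommG i j hij)
    · intro _ _ _ _ _ _
      trivial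
    · refine ⟨φ, trivial, ?_⟩
      rw [List.map_map]
      exact hne

/-- Every point of a set `V` with an action of `Alt(α)` is fixed by the pointwise stabilizer of a
set of at most `6 log₂ |V| + 2` elements of `α`. -/
theorem exists_support (u : V) : ∃ B : Finset α, B.card ≤ 6 * Nat.log 2 (Fintype.card V) + 2 ∧
    ∀ g : alternatingGroup α, (∀ x ∈ B, (g : Perm α) x = x) → g • u = u := by
  classical
  by_cases hα : ∃ p q : α, p ≠ q
  swap
  · push Not at hα
    refine ⟨∅, by simp, fun g _ => ?_⟩
    have : g = 1 := by
      apply Subtype.ext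
      ext x
      exact hα _ _
    rw [this, one_smul]
  obtain ⟨p, q, hpq⟩ := hα
  set k := Nat.log 2 (Fintype.card V) with hk
  have key : ∀ j : ℕ, (∃ B : Finset α, B.card ≤ 3 * (j - 1) + 2 ∧
      ∀ g : alternatingGroup α, (g : Perm α).IsThreeCycle →
        Disjoint (g : Perm α).support B → g • u = u) ∨
      (∃ π : Fin j → alternatingGroup α, (∀ i, (π i : Perm α).IsThreeCycle ∧
        p ∉ (π i : Perm α).support ∧ q ∉ (π i : Perm α).support ∧ π i • u ≠ u) ∧
        (∀ i j, i ≠ j → Disjoint (π i : Perm α).support (π j : Perm α).support)) := by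
    intro j
    induction j with
    | zero => right; exact ⟨fun i => i.elim0, fun i => i.elim0, fun i => i.elim0⟩
    | succ j ih =>
      rcases ih with ⟨B, hB, hc⟩ | ⟨π, h1, h2⟩
      · left
        exact ⟨B, hB.trans (by omega), hc⟩
      · set B : Finset α := univ.biUnion (fun i => (π i : Perm α).support) ∪ {p, q} with hBdef
        have hBc : B.card ≤ 3 * j + 2 := by
          have h3 : (univ.biUnion (fun i => (π i : Perm α).support)).card ≤ 3 * j := by
            calc _ ≤ ∑ i : Fin j, (π i : Perm α).support.card := Finset.card_biUnion_le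
              _ ≤ ∑ _i : Fin j, 3 := Finset.sum_le_sum (fun i _ => (h1 i).1.card_support.le)
              _ = 3 * j := by simp [mul_comm]
          have h4 := Finset.card_union_le (univ.biUnion (fun i => (π i : Perm α).support)) {p, q}
          have h5 : ({p, q} : Finset α).card ≤ 2 := Finset.card_le_two
          rw [hBdef]
          omega
        by_cases hcert : ∀ g : alternatingGroup α, (g : Perm α).IsThreeCycle →
            Disjoint (g : Perm α).support B → g • u = u
        · left
          exact ⟨B, by simpa using hBc, hcert⟩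
        · right
          push Not at hcert
          obtain ⟨g, hg1, hg2, hg3⟩ := hcert
          have hgp : p ∉ (g : Perm α).support := fun h => Finset.disjoint_left.1 hg2 h
            (Finset.mem_union_right _ (by simp))
          have hgq : q ∉ (g : Perm α).support := fun h => Finset.disjoint_left.1 hg2 h
            (Finset.mem_union_right _ (by simp))
          have hgd : ∀ i, Disjoint (g : Perm α).support (π i : Perm α).support := by
            intro i
            apply Finset.disjoint_of_subset_right _ hg2
            intro x hx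
            apply Finset.mem_union_left
            rw [Finset.mem_biUnion]
            exact ⟨i, Finset.mem_univ _, hx⟩
          refine ⟨Fin.cons g π, ?_, ?_⟩
          · intro i
            refine Fin.cases ?_ (fun i => ?_) i
            · simp only [Fin.cons_zero]
              exact ⟨hg1, hgp, hgq, hg3⟩
            · simp only [Fin.cons_succ]
              exact h1 i
          · intro i j
            refine Fin.cases ?_ (fun i => ?_) i
            · refine Fin.cases ?_ (fun j => ?_) j
              · intro h; exact absurd rfl h
              · intro _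
                simp only [Fin.cons_zero, Fin.cons_succ]
                exact hgd j
            · refine Fin.cases ?_ (fun j => ?_) j
              · intro _
                simp only [Fin.cons_zero, Fin.cons_succ]
                exact (hgd i).symm
              · intro hij
                simp only [Fin.cons_succ]
                exact h2 i j (fun h => hij (by rw [h]))
  rcases key (2 * k + 1) with ⟨B, hB, hc⟩ | ⟨π, h1, h2⟩
  · refine ⟨B, by omega, ?_⟩
    -- three-cycles outside `B` generate
    intro g hg
    have hgen : ∀ x, (g : Perm α) x ≠ x → x ∉ B := fun x hx hxB => hx (hg x hxB)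
    set P : α → Prop := fun x => x ∉ B with hP
    have h1 : ∀ x, P ((g : Perm α) x) ↔ P x := by
      intro x
      by_cases hx : (g : Perm α) x = x
      · rw [hx]
      · exact ⟨fun _ => hgen x hx, fun _ => hgen _ (fun h => hx ((g : Perm α).injective h))⟩
    have h2 : ofSubtype ((g : Perm α).subtypePerm h1) = (g : Perm α) :=
      ofSubtype_subtypePerm h1 hgen
    have h3 : (g : Perm α).subtypePerm h1 ∈ alternatingGroup {x // P x} := by
      rw [mem_alternatingGroup, sign_subtypePerm _ h1 hgen]
      exact mem_alternatingGroup.1 g.2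
    -- the stabilizer pulled back
    let S : Subgroup (Perm {x // P x}) :=
      { carrier := {τ | ∃ hτ : ofSubtype τ ∈ alternatingGroup α,
          (⟨ofSubtype τ, hτ⟩ : alternatingGroup α) • u = u}
        one_mem' := by
          refine ⟨by rw [map_one]; exact one_mem _, ?_⟩
          have : (⟨ofSubtype (1 : Perm {x // P x}), by rw [map_one]; exact one_mem _⟩ :
              alternatingGroup α) = 1 := by
            apply Subtype.ext
            exact map_one _
          rw [this, one_smul]
        mul_mem' := by
          rintro a b ⟨ha, ha2⟩ ⟨hb, hb2⟩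
          refine ⟨by rw [map_mul]; exact mul_mem ha hb, ?_⟩
          have : (⟨ofSubtype (a * b), by rw [map_mul]; exact mul_mem ha hb⟩ :
              alternatingGroup α) = ⟨ofSubtype a, ha⟩ * ⟨ofSubtype b, hb⟩ := by
            apply Subtype.ext
            exact map_mul _ _ _
          rw [this, mul_smul, hb2, ha2]
        inv_mem' := by
          rintro a ⟨ha, ha2⟩
          refine ⟨by rw [map_inv]; exact inv_mem ha, ?_⟩
          have : (⟨ofSubtype a⁻¹, by rw [map_inv]; exact inv_mem ha⟩ :
              alternatingGroup α) = (⟨ofSubtype a, ha⟩)⁻¹ := by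
            apply Subtype.ext
            exact map_inv _ _
          rw [this, inv_smul_eq_iff, ha2] }
    have hle : alternatingGroup {x // P x} ≤ S := by
      rw [← closure_three_cycles_eq_alternating, Subgroup.closure_le]
      intro τ hτ
      have hτ3 : τ.IsThreeCycle := hτ
      have h5 : (ofSubtype τ).IsThreeCycle := by
        unfold IsThreeCycle
        rw [cycleType_ofSubtype]
        exact hτ3
      have h6 : ofSubtype τ ∈ alternatingGroup α := h5.mem_alternatingGroup
      refine ⟨h6, hc ⟨ofSubtype τ, h6⟩ h5 ?_⟩
      rw [Finset.disjoint_left]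
      intro x hx hxB
      rw [mem_support] at hx
      exact hx (ofSubtype_apply_of_not_mem τ (fun h => h hxB))
    obtain ⟨h7, h8⟩ := hle h3
    have h9 : (⟨ofSubtype ((g : Perm α).subtypePerm h1), h7⟩ : alternatingGroup α) = g :=
      Subtype.ext h2
    rwa [h9] at h8
  · exfalso
    have := family_le u p q hpq π (fun i => ⟨(h1 i).2.1, (h1 i).2.2.1⟩) h2 (fun i => (h1 i).2.2.2)
    omega

end supp

end Pool.Agent.H287R3.RA
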