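import Pool.Agent.H287R3.RA.Homog

/-!
# Minimal supports are unique and equivariant
-/

set_option autoImplicit false
set_option linter.unusedSectionVars false

namespace Pool.Agent.H287R3.RA

open Finset Equiv Equiv.Perm

variable {α : Type} [Fintype α] [DecidableEq α]
variable {V : Type} [MulAction (alternatingGroup α) V]

theorem agree_smul {B : Finset α} {u : V} (h : Supports B u) {g g' : alternatingGroup α}
    (hg : ∀ x ∈ B, (g : Perm α) x = (g' : Perm α) x) : g • u = g' • u := by
  have h1 : (g'⁻¹ * g) • u = u := by
    apply h
    intro y hy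
    show ((g' : Perm α))⁻¹ ((g : Perm α) y) = y
    rw [Equiv.Perm.inv_eq_iff_eq, hg y hy]
  rw [mul_smul, inv_smul_eq_iff] at h1
  exact h1

theorem supports_smul {B : Finset α} {u : V} (h : Supports B u) (g : alternatingGroup α) :
    Supports (B.image (g : Perm α)) (g • u) := by
  intro k hk
  have h1 : (g⁻¹ * (k * g)) • u = u := by
    apply h
    intro y hy
    show ((g : Perm α))⁻¹ ((k : Perm α) ((g : Perm α) y)) = y
    rw [Equiv.Perm.inv_eq_iff_eq, hk _ (Finset.mem_image_of_mem _ hy)]
  rw [mul_smul, inv_smul_eq_iff, mul_smul] at h1
  exact h1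

theorem exists_ms (u : V) : ∃ B : Finset α, Supports B u ∧
    ∀ B' : Finset α, Supports B' u → B.card ≤ B'.card := by
  classical
  have hne : (univ.filter (fun B : Finset α => Supports B u)).Nonempty := by
    refine ⟨univ, ?_⟩
    rw [Finset.mem_filter]
    refine ⟨Finset.mem_univ _, ?_⟩
    intro g hg
    have : g = 1 := by
      apply Subtype.ext
      ext x
      exact hg x (Finset.mem_univ x)
    rw [this, one_smul]
  obtain ⟨B, hB, hmin⟩ := Finset.exists_min_image _ (fun B : Finset α => B.card) hne
  rw [Finset.mem_filter] at hB
  exact ⟨B, hB.2, fun B' hB' => hmin B' (by rw [Finset.mem_filter]; exact ⟨Finset.mem_univ _, hB'⟩)⟩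

/-- a support of the smallest size -/
noncomputable def ms (α : Type) [Fintype α] [DecidableEq α] {V : Type}
    [MulAction (alternatingGroup α) V] (u : V) : Finset α := (exists_ms (α := α) u).choose

theorem ms_supports (u : V) : Supports (ms α u) u := (exists_ms (α := α) u).choose_spec.1

theorem ms_min (u : V) {B' : Finset α} (h : Supports B' u) : (ms α u).card ≤ B'.card :=
  (exists_ms (α := α) u).choose_spec.2 B' h

theorem ms_unique (u : V) {B' : Finset α} (h : Supports B' u) (hc : B'.card ≤ (ms α u).card)
    (hbig : 2 * (ms α u).card + 3 ≤ Fintype.card α) : B' = ms α u := by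
  classical
  set B := ms α u with hB
  have hBs : Supports B u := ms_supports u
  by_contra hne
  have hex : ∃ a ∈ B, a ∉ B' := by
    by_contra hcon
    push Not at hcon
    have hsub : B ⊆ B' := hcon
    exact hne (Finset.eq_of_subset_of_card_le hsub hc).symm
  obtain ⟨a, haB, haB'⟩ := hex
  have L1 : ∀ g : alternatingGroup α, (∀ y ∈ B.erase a, (g : Perm α) y = y) →
      (g : Perm α) a ∉ B' → g • u = u := by
    intro g hg ht
    set t := (g : Perm α) a with htdef
    have htB : t ∉ B.erase a := by
      intro hmem
      have h1 := hg t hmem
      have h2 : t = a := (g : Perm α).injective h1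
      rw [h2] at hmem
      exact Finset.notMem_erase a B hmem
    obtain ⟨k, hk⟩ := exists_even (B' ∪ B) (fun y => if y = a then t else y) (by
      have haux : ∀ z, z ∈ B' ∪ B → z ≠ a → z ≠ t := by
        intro z hz hza hzt
        rw [Finset.mem_union] at hz
        rcases hz with hz | hz
        · exact ht (hzt ▸ hz)
        · exact htB (hzt ▸ Finset.mem_erase.2 ⟨hza, hz⟩)
      intro x hx y hy hxy
      simp only at hxy
      by_cases hxa : x = a <;> by_cases hya : y = a
      · rw [hxa, hya]
      · rw [if_pos hxa, if_neg hya] at hxy
        exact absurd hxy.symm (haux y hy hya)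
      · rw [if_neg hxa, if_pos hya] at hxy
        exact absurd hxy (haux x hx hxa)
      · rwa [if_neg hxa, if_neg hya] at hxy) (by
      have := Finset.card_union_le B' B
      omega)
    have hku : k • u = u := by
      apply h
      intro x hx
      rw [hk x (Finset.mem_union_left _ hx), if_neg]
      rintro rfl
      exact haB' hx
    have hgk : g • u = k • u := by
      apply agree_smul hBs
      intro x hx
      rw [hk x (Finset.mem_union_right _ hx)]
      by_cases hxa : x = a
      · rw [if_pos hxa, hxa]
      · rw [if_neg hxa, hg x (Finset.mem_erase.2 ⟨hxa, hx⟩)]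
    rw [hgk, hku]
  have hsup : Supports (B.erase a) u := by
    intro g hg
    by_cases ht : (g : Perm α) a ∈ B'
    · have hex2 : ∃ t, t ∉ B ∪ B' := by
        by_contra hcon
        push Not at hcon
        have h1 : (univ : Finset α) ⊆ B ∪ B' := fun x _ => hcon x
        have h2 := Finset.card_le_card h1
        have h3 := Finset.card_union_le B B'
        rw [Finset.card_univ] at h2
        omega
      obtain ⟨t, ht2⟩ := hex2
      rw [Finset.mem_union, not_or] at ht2
      by_cases hga : (g : Perm α) a = a
      · exact absurd ht (by rw [hga]; exact haB')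
      have hgB : (g : Perm α) a ∉ B := by
        intro hmem
        have h1 := hg _ (Finset.mem_erase.2 ⟨hga, hmem⟩)
        exact hga ((g : Perm α).injective h1)
      obtain ⟨s, hs⟩ := exists_even (insert ((g : Perm α) a) B)
        (fun y => if y = (g : Perm α) a then t else y) (by
          have haux : ∀ z, z ∈ insert ((g : Perm α) a) B → z ≠ (g : Perm α) a → z ≠ t := by
            intro z hz hza hzt
            rw [Finset.mem_insert] at hz
            rcases hz with hz | hz
            · exact hza hz
            · exact ht2.1 (hzt ▸ hz)
          intro x hx y hy hxy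
          simp only at hxy
          by_cases hxa : x = (g : Perm α) a <;> by_cases hya : y = (g : Perm α) a
          · rw [hxa, hya]
          · rw [if_pos hxa, if_neg hya] at hxy
            exact absurd hxy.symm (haux y hy hya)
          · rw [if_neg hxa, if_pos hya] at hxy
            exact absurd hxy (haux x hx hxa)
          · rwa [if_neg hxa, if_neg hya] at hxy) (by
          have := Finset.card_insert_le ((g : Perm α) a) B
          omega)
      have hsB : ∀ y ∈ B, (s : Perm α) y = y := by
        intro y hy
        rw [hs y (Finset.mem_insert_of_mem hy), if_neg]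
        rintro rfl
        exact hgB hy
      have hsu : s • u = u := hBs s hsB
      have h1 := L1 (s * g) (by
        intro y hy
        show (s : Perm α) ((g : Perm α) y) = y
        rw [hg y hy, hsB y (Finset.mem_of_mem_erase hy)]) (by
        show (s : Perm α) ((g : Perm α) a) ∉ B'
        rw [hs _ (Finset.mem_insert_self _ _), if_pos rfl]
        exact ht2.2)
      rw [mul_smul] at h1
      have h2 : g • u = s⁻¹ • u := by rw [eq_inv_smul_iff, h1]
      rw [h2, inv_smul_eq_iff, hsu]
    · exact L1 g hg ht
  have h1 := ms_min u hsup
  have h2 := Finset.card_erase_add_one haB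
  rw [← hB] at h1
  omega

theorem ms_smul (g : alternatingGroup α) (u : V)
    (hbig : ∀ v : V, 2 * (ms α v).card + 3 ≤ Fintype.card α) :
    ms α (g • u) = (ms α u).image (g : Perm α) := by
  have h1 : Supports ((ms α u).image (g : Perm α)) (g • u) := supports_smul (ms_supports u) g
  have h2 : ∀ (g : alternatingGroup α) (u : V), (ms α (g • u)).card ≤ (ms α u).card := by
    intro g u
    refine (ms_min (g • u) (supports_smul (ms_supports u) g)).trans Finset.card_image_le
  have h3 : (ms α u).card ≤ (ms α (g • u)).card := by
    have := h2 g⁻¹ (g • u)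
    rwa [inv_smul_smul] at this
  exact (ms_unique (g • u) h1 (Finset.card_image_le.trans h3) (hbig _)).symm

theorem ms_card [Fintype V] (u : V) : (ms α u).card ≤ 6 * Nat.log 2 (Fintype.card V) + 2 := by
  obtain ⟨B, hB, hs⟩ := exists_support (α := α) u
  exact (ms_min u hs).trans hB

/-- transitivity on subsets of a given size -/
theorem exists_image (B D : Finset α) (hBD : B.card = D.card) (hc : B.card + 2 ≤ Fintype.card α) :
    ∃ g : alternatingGroup α, B.image (g : Perm α) = D := by
  classical
  have e : B ≃ D := Finset.equivOfCardEq hBD
  obtain ⟨g, hg⟩ := exists_even B (fun y => if h : y ∈ B then (e ⟨y, h⟩ : α) else y) (by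
    intro y hy z hz hyz
    simp only at hyz
    rw [dif_pos (Finset.mem_coe.1 hy), dif_pos (Finset.mem_coe.1 hz)] at hyz
    have h3 := e.injective (Subtype.ext hyz)
    exact congrArg Subtype.val h3) hc
  refine ⟨g, ?_⟩
  apply Finset.eq_of_subset_of_card_le
  · intro x hx
    rw [Finset.mem_image] at hx
    obtain ⟨y, hy, rfl⟩ := hx
    rw [hg y hy, dif_pos hy]
    exact (e ⟨y, hy⟩).2
  · rw [Finset.card_image_of_injective _ (g : Perm α).injective, hBD]

theorem choose_mono_half (m : ℕ) {a b : ℕ} (hab : a ≤ b) (hb : 2 * b ≤ m) :
    m.choose a ≤ m.choose b := by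
  induction b, hab using Nat.le_induction with
  | base => exact le_rfl
  | succ b hab ih =>
    exact (ih (by omega)).trans (Nat.choose_le_succ_of_lt_half_left (by omega))

/-- the size of the minimal support, from the size of the set -/
theorem ms_card_le [Fintype V] (j : ℕ)
    (hbig : ∀ v : V, 2 * (ms α v).card + 3 ≤ Fintype.card α)
    (hj : Fintype.card V < (Fintype.card α).choose (j + 1)) (u : V) : (ms α u).card ≤ j := by
  classical
  by_contra hlt
  push Not at hlt
  have h1 : (Fintype.card α).choose (ms α u).card ≤ Fintype.card V := by
    have h2 : (univ : Finset V).image (fun v => ms α v) ⊇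
        (univ : Finset α).powersetCard (ms α u).card := by
      intro D hD
      rw [Finset.mem_powersetCard] at hD
      obtain ⟨g, hg⟩ := exists_image (ms α u) D hD.2.symm (by have := hbig u; omega)
      rw [Finset.mem_image]
      exact ⟨g • u, Finset.mem_univ _, by rw [ms_smul g u hbig, hg]⟩
    calc (Fintype.card α).choose (ms α u).card
        = ((univ : Finset α).powersetCard (ms α u).card).card := by
          rw [Finset.card_powersetCard, Finset.card_univ]
      _ ≤ ((univ : Finset V).image (fun v => ms α v)).card := Finset.card_le_card h2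
      _ ≤ _ := Finset.card_image_le
  have h2 := choose_mono_half (Fintype.card α) (a := j + 1) (b := (ms α u).card) hlt
    (by have := hbig u; omega)
  omega

end Pool.Agent.H287R3.RA
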